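import Mathlib

/-!
# The only Möbius transformation preserving the roots of `x⁶ + 7x + 1` is the identity
-/

set_option autoImplicit false

namespace Pool.Agent.Y970.EC

theorem final_alg {k : Type} [Field k] [CharZero k] {c H α β γ δ : k} (hH : H ≠ 0)
    (hΔ : α * δ - β * γ ≠ 0)
    (h : ∀ x : k, c * (x ^ 6 + 7 * x + 1) =
      H * ((γ + δ * x) ^ 6 + 7 * (γ + δ * x) * (α + β * x) ^ 5 + (α + β * x) ^ 6)) :
    β = 0 ∧ γ = 0 ∧ δ = α := by
  have m3 := h (-3)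
  have m2 := h (-2)
  have m1 := h (-1)
  have z0 := h 0
  have p1 := h 1
  have p2 := h 2
  have p3 := h 3
  have E1 : 7 * c = H * (6 * γ ^ 5 * δ + 7 * (δ * α ^ 5 + 5 * γ * α ^ 4 * β) +
      6 * α ^ 5 * β) := by
    linear_combination (-1/60) * m3 + (3/20) * m2 + (-3/4) * m1 + (3/4) * p1 + (-3/20) * p2 +
      (1/60) * p3
  have E2 : H * (15 * γ ^ 4 * δ ^ 2 + 35 * δ * α ^ 4 * β + 70 * γ * α ^ 3 * β ^ 2 +
      15 * α ^ 4 * β ^ 2) = 0 := by
    linear_combination -((1/180) * m3 + (-3/40) * m2 + (3/4) * m1 + (-49/36) * z0 + (3/4) * p1 +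
      (-3/40) * p2 + (1/180) * p3)
  have E3 : H * (20 * γ ^ 3 * δ ^ 3 + 70 * δ * α ^ 3 * β ^ 2 + 70 * γ * α ^ 2 * β ^ 3 +
      20 * α ^ 3 * β ^ 3) = 0 := by
    linear_combination -((1/48) * m3 + (-1/6) * m2 + (13/48) * m1 + (-13/48) * p1 + (1/6) * p2 +
      (-1/48) * p3)
  have E4 : H * (15 * γ ^ 2 * δ ^ 4 + 70 * δ * α ^ 2 * β ^ 3 + 35 * γ * α * β ^ 4 +
      15 * α ^ 2 * β ^ 4) = 0 := by
    linear_combination -((-1/144) * m3 + (1/12) * m2 + (-13/48) * m1 + (7/18) * z0 +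
      (-13/48) * p1 + (1/12) * p2 + (-1/144) * p3)
  have E5 : H * (6 * γ * δ ^ 5 + 35 * δ * α * β ^ 4 + 7 * γ * β ^ 5 + 6 * α * β ^ 5) = 0 := by
    linear_combination -((-1/240) * m3 + (1/60) * m2 + (-1/48) * m1 + (1/48) * p1 +
      (-1/60) * p2 + (1/240) * p3)
  have F2 := (mul_eq_zero.1 E2).resolve_left hH
  have F3 := (mul_eq_zero.1 E3).resolve_left hH
  have F4 := (mul_eq_zero.1 E4).resolve_left hH
  have F5 := (mul_eq_zero.1 E5).resolve_left hH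
  have n3 : (3 : k) ≠ 0 := by norm_num
  -- the quartic covariant
  have T0 : (α * δ - β * γ) ^ 4 * (γ ^ 2 * α * (3 * α + 7 * γ)) = 0 := by
    have : (α * δ - β * γ) ^ 4 * (γ ^ 2 * α * (3 * α + 7 * γ)) =
      3 * ((γ ^ 6 + 7 * γ * α ^ 5 + α ^ 6) * ((15 * γ ^ 2 * δ ^ 4 + 70 * δ * α ^ 2 * β ^ 3 +
        35 * γ * α * β ^ 4 + 15 * α ^ 2 * β ^ 4) / 15) -
      4 * ((6 * γ ^ 5 * δ + 7 * (δ * α ^ 5 + 5 * γ * α ^ 4 * β) + 6 * α ^ 5 * β) / 6) *
        ((20 * γ ^ 3 * δ ^ 3 + 70 * δ * α ^ 3 * β ^ 2 + 70 * γ * α ^ 2 * β ^ 3 +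
        20 * α ^ 3 * β ^ 3) / 20) +
      3 * ((15 * γ ^ 4 * δ ^ 2 + 35 * δ * α ^ 4 * β + 70 * γ * α ^ 3 * β ^ 2 +
        15 * α ^ 4 * β ^ 2) / 15) ^ 2) := by
      field_simp
      ring
    rw [this, F2, F3, F4]
    ring
  have T1 : (α * δ - β * γ) ^ 4 * (2 * γ * δ * α * (3 * α + 7 * γ) +
      γ ^ 2 * (β * (3 * α + 7 * γ) + α * (3 * β + 7 * δ))) = 0 := by
    have : (α * δ - β * γ) ^ 4 * (2 * γ * δ * α * (3 * α + 7 * γ) +
      γ ^ 2 * (β * (3 * α + 7 * γ) + α * (3 * β + 7 * δ))) =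
      3 * (2 * ((γ ^ 6 + 7 * γ * α ^ 5 + α ^ 6) * ((6 * γ * δ ^ 5 + 35 * δ * α * β ^ 4 +
        7 * γ * β ^ 5 + 6 * α * β ^ 5) / 6) -
      3 * ((6 * γ ^ 5 * δ + 7 * (δ * α ^ 5 + 5 * γ * α ^ 4 * β) + 6 * α ^ 5 * β) / 6) *
        ((15 * γ ^ 2 * δ ^ 4 + 70 * δ * α ^ 2 * β ^ 3 +
        35 * γ * α * β ^ 4 + 15 * α ^ 2 * β ^ 4) / 15) +
      2 * ((15 * γ ^ 4 * δ ^ 2 + 35 * δ * α ^ 4 * β + 70 * γ * α ^ 3 * β ^ 2 +
        15 * α ^ 4 * β ^ 2) / 15) * ((20 * γ ^ 3 * δ ^ 3 + 70 * δ * α ^ 3 * β ^ 2 +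
        70 * γ * α ^ 2 * β ^ 3 + 20 * α ^ 3 * β ^ 3) / 20))) := by
      field_simp
      ring
    rw [this, F2, F3, F4, F5]
    ring
  have T0' := (mul_eq_zero.1 T0).resolve_left (pow_ne_zero 4 hΔ)
  have T1' := (mul_eq_zero.1 T1).resolve_left (pow_ne_zero 4 hΔ)
  have hγ : γ = 0 := by
    by_contra hγ
    have a1 : α * (3 * α + 7 * γ) = 0 := by
      have : γ ^ 2 * (α * (3 * α + 7 * γ)) = 0 := by linear_combination T0'
      exact (mul_eq_zero.1 this).resolve_left (pow_ne_zero 2 hγ)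
    have a2 : β * (3 * α + 7 * γ) + α * (3 * β + 7 * δ) = 0 := by
      have : γ ^ 2 * (β * (3 * α + 7 * γ) + α * (3 * β + 7 * δ)) = 0 := by
        linear_combination T1' - 2 * γ * δ * a1
      exact (mul_eq_zero.1 this).resolve_left (pow_ne_zero 2 hγ)
    rcases mul_eq_zero.1 a1 with h0 | h0
    · rw [h0] at a2 hΔ
      apply hΔ
      have : 7 * (β * γ) = 0 := by linear_combination a2
      have h7 : (7 : k) ≠ 0 := by norm_num
      have := (mul_eq_zero.1 this).resolve_left h7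
      linear_combination -this
    · have hα : α ≠ 0 := by
        rintro rfl
        apply hγ
        have h7 : (7 : k) ≠ 0 := by norm_num
        have : 7 * γ = 0 := by linear_combination h0
        exact (mul_eq_zero.1 this).resolve_left h7
      have a3 : 3 * β + 7 * δ = 0 := by
        have : α * (3 * β + 7 * δ) = 0 := by linear_combination a2 - β * h0
        exact (mul_eq_zero.1 this).resolve_left hα
      apply hΔ
      have h7 : (7 : k) ≠ 0 := by norm_num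
      have : 7 * (α * δ - β * γ) = 0 := by linear_combination α * a3 - β * h0
      exact (mul_eq_zero.1 this).resolve_left h7
  subst hγ
  have hα : α ≠ 0 := by
    rintro rfl
    apply hΔ
    ring
  have hβ : β = 0 := by
    by_contra hβ
    have b1 : 7 * δ + 3 * β = 0 := by
      have : 5 * α ^ 4 * β * (7 * δ + 3 * β) = 0 := by linear_combination F2
      refine (mul_eq_zero.1 this).resolve_left ?_
      refine mul_ne_zero (mul_ne_zero (by norm_num) (pow_ne_zero 4 hα)) hβ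
    have b2 : 7 * δ + 2 * β = 0 := by
      have : 10 * α ^ 3 * β ^ 2 * (7 * δ + 2 * β) = 0 := by linear_combination F3
      refine (mul_eq_zero.1 this).resolve_left ?_
      refine mul_ne_zero (mul_ne_zero (by norm_num) (pow_ne_zero 3 hα)) (pow_ne_zero 2 hβ)
    exact hβ (by linear_combination b1 - b2)
  subst hβ
  refine ⟨rfl, rfl, ?_⟩
  have e0 : c = H * α ^ 6 := by linear_combination z0
  have e1 : H * (7 * α ^ 5) * (δ - α) = 0 := by
    rw [e0] at E1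
    linear_combination -E1
  have := (mul_eq_zero.1 e1).resolve_left
    (mul_ne_zero hH (mul_ne_zero (by norm_num) (pow_ne_zero 5 hα)))
  exact sub_eq_zero.1 this

end Pool.Agent.Y970.EC
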