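import Pool.Agent.Y970.EC.Multi

/-!
# The field generated by the points, its automorphisms and its points
-/

set_option autoImplicit false

namespace Pool.Agent.Y970.EC

open Pool.Agent.TH729.Gr

variable (V : Type)

/-- the relations between the generators -/
noncomputable def JJ : Ideal (MvPolynomial (V ⊕ V) ℚ) := RingHom.ker (ψ (V := V)).toRingHom

instance : (JJ V).IsPrime := RingHom.ker_isPrime _

/-- the ring generated by the generators -/
abbrev QQ' : Type := MvPolynomial (V ⊕ V) ℚ ⧸ JJ V

/-- the field generated by the generators -/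
abbrev KK' : Type := FractionRing (QQ' V)

variable {V}

/-- a polynomial in the generators as an element of the field -/
noncomputable def mk : MvPolynomial (V ⊕ V) ℚ →+* KK' V :=
  (algebraMap (QQ' V) (KK' V)).comp (Ideal.Quotient.mk (JJ V))

/-- the embedding in the algebraically closed field -/
noncomputable def emb : KK' V →+* Om V :=
  IsFractionRing.lift (A := QQ' V) (K := KK' V)
    (g := RingHom.kerLift (ψ (V := V)).toRingHom) (RingHom.kerLift_injective _)

instance : CharZero (KK' V) :=
  ⟨fun a b h => by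
    have h1 := congrArg (emb (V := V)) h
    rw [map_natCast, map_natCast] at h1
    exact_mod_cast h1⟩

theorem emb_mk (G : MvPolynomial (V ⊕ V) ℚ) : emb (mk G) = ψ G := by
  rw [emb, mk, RingHom.comp_apply, IsFractionRing.lift_algebraMap]
  exact RingHom.kerLift_mk _ _

theorem exists_frac' (z : KK' V) : ∃ G H : MvPolynomial (V ⊕ V) ℚ, mk H ≠ 0 ∧
    z = mk G / mk H := by
  obtain ⟨a, b, hb, hz⟩ := IsFractionRing.div_surjective (A := QQ' V) z
  obtain ⟨G, rfl⟩ := Ideal.Quotient.mk_surjective a
  obtain ⟨H, rfl⟩ := Ideal.Quotient.mk_surjective b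
  refine ⟨G, H, ?_, hz.symm⟩
  have := nonZeroDivisors.ne_zero hb
  intro h
  exact this (IsFractionRing.injective (QQ' V) (KK' V) (h.trans (map_zero _).symm))

/-- the variables -/
noncomputable def xK (i : V) : KK' V := mk (MvPolynomial.X (Sum.inl i))

/-- the cube roots -/
noncomputable def tK (i : V) : KK' V := mk (MvPolynomial.X (Sum.inr i))

theorem emb_xK (i : V) : emb (xK i) = xx i := by
  rw [xK, emb_mk, ψ, MvPolynomial.aeval_X]; rfl

theorem emb_tK (i : V) : emb (tK i) = rr i := by
  rw [tK, emb_mk, ψ, MvPolynomial.aeval_X]; rfl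

theorem map_ff' {R S : Type} [CommRing R] [CommRing S] (f : R →+* S) (x : R) :
    f (ff x) = ff (f x) := by
  simp [ff, map_ofNat]

theorem tK_cube (i : V) : tK i ^ 3 = ff (xK i) := by
  apply (emb (V := V)).injective
  rw [map_pow, map_ff', emb_xK, emb_tK, rr_cube]

theorem gen_top : IntermediateField.adjoin ℚ (Set.range (xK (V := V)) ∪ Set.range tK) = ⊤ := by
  have hG : ∀ G : MvPolynomial (V ⊕ V) ℚ,
      mk G ∈ IntermediateField.adjoin ℚ (Set.range (xK (V := V)) ∪ Set.range tK) := by
    intro G
    induction G using MvPolynomial.induction_on with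
    | C a =>
      have : mk (MvPolynomial.C a) = algebraMap ℚ (KK' V) a := by
        have h : (mk (V := V)).comp MvPolynomial.C = algebraMap ℚ (KK' V) :=
          Subsingleton.elim _ _
        exact DFunLike.congr_fun h a
      rw [this]
      exact IntermediateField.algebraMap_mem _ _
    | add p q hp hq => rw [map_add]; exact add_mem hp hq
    | mul_X p s hp =>
      rw [map_mul]
      refine mul_mem hp (IntermediateField.subset_adjoin _ _ ?_)
      rcases s with i | i
      · exact Or.inl ⟨i, rfl⟩
      · exact Or.inr ⟨i, rfl⟩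
  rw [eq_top_iff]
  intro z _
  obtain ⟨G, H, -, rfl⟩ := exists_frac' z
  exact div_mem (hG G) (hG H)

theorem xK_indep : AlgebraicIndependent ℚ (xK (V := V)) := by
  rw [algebraicIndependent_iff]
  intro p hp
  have h1 : ∀ p : MvPolynomial V ℚ, emb (MvPolynomial.aeval xK p) = ι p := by
    intro p
    have h : (emb (V := V)).comp (MvPolynomial.aeval (R := ℚ) (xK (V := V))).toRingHom =
        ι (V := V) := by
      refine MvPolynomial.ringHom_ext' (Subsingleton.elim _ _) fun i => ?_
      show emb (MvPolynomial.aeval (R := ℚ) xK (MvPolynomial.X i)) = ι (MvPolynomial.X i)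
      rw [MvPolynomial.aeval_X, emb_xK]; rfl
    exact DFunLike.congr_fun h p
  have h2 := h1 p
  rw [hp, map_zero] at h2
  have h3 : Function.Injective (ι (V := V)) :=
    (algebraMap (F V) (Om V)).injective.comp (IsFractionRing.injective (A V) (F V))
  exact h3 (h2.symm.trans (map_zero _).symm)

/-- elements that are constant are rational -/
theorem emb_const {a : KK' V} (h : ∀ i, D i (emb a) = 0) : ∃ q : ℚ, a = q := by
  obtain ⟨G, H, -, rfl⟩ := exists_frac' a
  obtain ⟨q, hq⟩ := const_rat (G := G) (H := H) (a := emb (mk G / mk H))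
    (by rw [map_div₀, emb_mk, emb_mk]) h
  refine ⟨q, (emb (V := V)).injective ?_⟩
  rw [hq, map_ratCast]

/-- **Points.** -/
theorem points {a b : KK' V} (h : b ^ 3 = ff a) : ∃ i, a = xK i := by
  by_contra hcon
  push Not at hcon
  have hE : emb b ^ 3 = ff (emb a) := by rw [← map_pow, h, map_ff']
  have hmem : ∀ (i : V) (z : KK' V), let := alg i;
      emb z ∈ IntermediateField.adjoin (RatFunc (kk i)) {(rr i : Om V)} := by
    intro i z
    let := alg i
    obtain ⟨G, H, -, rfl⟩ := exists_frac' z
    rw [map_div₀, emb_mk, emb_mk]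
    exact div_mem (ψ_mem i G) (ψ_mem i H)
  have hDa : ∀ i, D i (emb a) = 0 := by
    intro i
    by_contra hne
    have h1 := point (hmem i a) (hmem i b) hE hne
    rw [← emb_xK] at h1
    exact hcon i ((emb (V := V)).injective h1)
  have hDb : ∀ i, D i (emb b) = 0 := by
    intro i
    have h1 : D i (emb b ^ 3) = 0 := by rw [hE, D_ff', hDa, mul_zero]
    rw [Derivation.leibniz_pow, smul_eq_mul, nsmul_eq_mul] at h1
    have h2 : ((3 : ℕ) : Om V) ≠ 0 := by norm_num
    have h3 := (mul_eq_zero.1 h1).resolve_left h2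
    rcases mul_eq_zero.1 h3 with h4 | h4
    · have h5 : emb b = 0 := (pow_eq_zero_iff (by norm_num)).1 h4
      rw [h5, map_zero]
    · exact h4
  obtain ⟨q, rfl⟩ := emb_const hDa
  obtain ⟨q', rfl⟩ := emb_const hDb
  have h1 : (q' : ℚ) ^ 3 = ff q := by
    apply Rat.cast_injective (α := KK' V)
    have h2 := map_ff' (Rat.castHom (KK' V)) q
    simp only [Rat.coe_castHom] at h2
    rw [Rat.cast_pow, h, h2]
  exact no_rat_point h1

/-- uniqueness of the automorphisms -/
theorem aut_unique {f g : KK' V ≃+* KK' V} (h : ∀ i, f (xK i) = g (xK i)) : f = g := by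
  have ht : ∀ i, f (tK i) = g (tK i) := by
    intro i
    have hg0 : g (tK i) ≠ 0 := by
      intro h0
      have h1 : tK i = 0 := (map_eq_zero_iff g g.injective).1 h0
      have h2 := emb_tK i
      rw [h1, map_zero] at h2
      exact rr_ne i h2.symm
    obtain ⟨w, hw⟩ : ∃ w, w = f (tK i) / g (tK i) := ⟨_, rfl⟩
    have hw3 : w ^ 3 = 1 := by
      have h1 : f (tK i) ^ 3 = g (tK i) ^ 3 := by
        rw [← map_pow, ← map_pow, tK_cube]
        have h2 := map_ff' (f : KK' V →+* KK' V) (xK i)
        have h3 := map_ff' (g : KK' V →+* KK' V) (xK i)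
        simp only [RingEquiv.coe_toRingHom] at h2 h3
        rw [h2, h3, h i]
      rw [hw, div_pow, h1, div_self (pow_ne_zero 3 hg0)]
    have hE : emb w ^ 3 = 1 := by rw [← map_pow, hw3, map_one]
    obtain ⟨q, hq⟩ := emb_const (a := w) (fun j => D_root hE j)
    have hq3 : q ^ 3 = 1 := by
      apply Rat.cast_injective (α := KK' V)
      rw [Rat.cast_pow, ← hq, hw3, Rat.cast_one]
    have hq1 : q = 1 := by
      have : (q - 1) * (q ^ 2 + q + 1) = 0 := by linear_combination hq3
      rcases mul_eq_zero.1 this with h1 | h1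
      · exact sub_eq_zero.1 h1
      · nlinarith [sq_nonneg (q + 1 / 2)]
    rw [hq1, Rat.cast_one] at hq
    rw [hq] at hw
    field_simp at hw
    exact hw.symm
  have hG : ∀ G : MvPolynomial (V ⊕ V) ℚ, f (mk G) = g (mk G) := by
    intro G
    have h1 : ((f : KK' V →+* KK' V).comp mk) = ((g : KK' V →+* KK' V).comp mk) := by
      refine MvPolynomial.ringHom_ext' (Subsingleton.elim _ _) fun s => ?_
      rcases s with i | i
      · exact h i
      · exact ht i
    exact DFunLike.congr_fun h1 G
  ext z
  obtain ⟨G, H, -, rfl⟩ := exists_frac' z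
  rw [map_div₀, map_div₀, hG, hG]

/-- existence of the automorphisms -/
theorem aut_exists (π : Equiv.Perm V) : ∃ f : KK' V ≃+* KK' V, ∀ i, f (xK i) = xK (π i) := by
  let s : Equiv.Perm (V ⊕ V) := Equiv.sumCongr π π
  have hs : ∀ (π : Equiv.Perm V) (G : MvPolynomial (V ⊕ V) ℚ), G ∈ JJ V →
      MvPolynomial.rename (Sum.map π π) G ∈ JJ V := by
    intro π G hG
    exact ψ_perm π hG
  let ρ : MvPolynomial (V ⊕ V) ℚ ≃+* MvPolynomial (V ⊕ V) ℚ :=
    (MvPolynomial.renameEquiv ℚ s).toRingEquiv
  have hρ : ∀ G, ρ G = MvPolynomial.rename (Sum.map π π) G := fun G => rfl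
  have hmap : JJ V = (JJ V).map (ρ : MvPolynomial (V ⊕ V) ℚ →+* MvPolynomial (V ⊕ V) ℚ) := by
    apply le_antisymm
    · intro G hG
      have h1 := hs π.symm G hG
      have h2 : G = ρ (MvPolynomial.rename (Sum.map π.symm π.symm) G) := by
        rw [hρ, MvPolynomial.rename_rename]
        have : (Sum.map π π ∘ Sum.map π.symm π.symm : V ⊕ V → V ⊕ V) = id := by
          funext v
          rcases v with v | v <;> simp
        rw [this, MvPolynomial.rename_id, AlgHom.id_apply]
      rw [h2]
      exact Ideal.mem_map_of_mem _ h1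
    · rw [Ideal.map_le_iff_le_comap]
      intro G hG
      exact hs π G hG
  let e : QQ' V ≃+* QQ' V := Ideal.quotientEquiv (JJ V) (JJ V) ρ hmap
  let f : KK' V ≃+* KK' V := IsFractionRing.ringEquivOfRingEquiv (K := KK' V) (L := KK' V) e
  refine ⟨f, fun i => ?_⟩
  show IsFractionRing.ringEquivOfRingEquiv (K := KK' V) (L := KK' V) e
    (algebraMap (QQ' V) (KK' V) (Ideal.Quotient.mk (JJ V) (MvPolynomial.X (Sum.inl i)))) = _
  rw [IsFractionRing.ringEquivOfRingEquiv_algebraMap]
  have h2 : e (Ideal.Quotient.mk (JJ V) (MvPolynomial.X (Sum.inl i))) =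
      Ideal.Quotient.mk (JJ V) (MvPolynomial.X (Sum.inl (π i))) := by
    show Ideal.quotientEquiv (JJ V) (JJ V) ρ hmap _ = _
    rw [Ideal.quotientEquiv_mk, hρ, MvPolynomial.rename_X]
    rfl
  rw [h2]
  rfl

end Pool.Agent.Y970.EC
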