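import Pool.Agent.Y970.EC.Val

/-!
# Holomorphic forms on the curve `t³ = 2(x⁶ + 7x + 1)` and its points over its function field
-/

set_option autoImplicit false

namespace Pool.Agent.Y970.EC

open Polynomial IsDedekindDomain WithZero

/-- A field extension of the field of rational functions with a cube root of `2(x⁶ + 7x + 1)` and
a derivation extending `d/dx`. -/
structure Ctx (k Ω : Type) [Field k] [Field Ω] [Algebra (RatFunc k) Ω] where
  /-- the derivation `d/dx` -/
  D : Derivation ℤ Ω Ω
  hDC : ∀ c : k, D (algebraMap (RatFunc k) Ω (RatFunc.C c)) = 0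
  hDX : D (algebraMap (RatFunc k) Ω RatFunc.X) = 1
  /-- the cube root -/
  r : Ω
  hr : r ^ 3 = ff (algebraMap (RatFunc k) Ω RatFunc.X)
  /-- an automorphism -/
  σ : Ω ≃ₐ[RatFunc k] Ω
  /-- a root of unity -/
  ω : k
  hω : 1 + ω + ω ^ 2 = 0
  hσ : σ r = algebraMap (RatFunc k) Ω (RatFunc.C ω) * r

namespace Ctx

variable {k Ω : Type} [Field k] [Field Ω] [Algebra (RatFunc k) Ω] (S : Ctx k Ω)

/-- the variable in the big field -/
noncomputable def x (_ : Ctx k Ω) : Ω := algebraMap (RatFunc k) Ω RatFunc.X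

/-- polynomials in the big field -/
noncomputable def P (_ : Ctx k Ω) : k[X] →+* Ω :=
  (algebraMap (RatFunc k) Ω).comp (algebraMap k[X] (RatFunc k))

theorem P_X : S.P X = S.x := by
  show algebraMap (RatFunc k) Ω (algebraMap k[X] (RatFunc k) X) = _
  rw [RatFunc.algebraMap_X]; rfl

theorem P_C (c : k) : S.P (C c) = algebraMap (RatFunc k) Ω (RatFunc.C c) := by
  show algebraMap (RatFunc k) Ω (algebraMap k[X] (RatFunc k) (C c)) = _
  rw [RatFunc.algebraMap_C]

theorem P_inj : Function.Injective S.P :=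
  (algebraMap (RatFunc k) Ω).injective.comp (IsFractionRing.injective k[X] (RatFunc k))

theorem x_ne : S.x ≠ 0 := by
  rw [← P_X]
  intro h
  rw [← map_zero S.P] at h
  exact X_ne_zero (S.P_inj h)

theorem D_P (p : k[X]) : S.D (S.P p) = S.P (derivative p) := by
  induction p using Polynomial.induction_on with
  | C a => rw [P_C, S.hDC, derivative_C, map_zero]
  | add p q hp hq => rw [map_add, map_add, hp, hq, derivative_add, map_add]
  | monomial n a h =>
    have e5 : derivative (C a * X ^ n * X : k[X]) =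
        derivative (C a * X ^ n : k[X]) * X + C a * X ^ n := by
      rw [derivative_mul (f := C a * X ^ n), derivative_X, mul_one]
    have hX : S.D (S.P X) = 1 := by rw [P_X]; exact S.hDX
    rw [pow_succ, ← mul_assoc, e5, map_mul, Derivation.leibniz, h, hX, map_add,
      map_mul _ (derivative (C a * X ^ n))]
    simp only [smul_eq_mul]
    ring

theorem r_cube : S.r ^ 3 = S.P (fp k) := by
  rw [S.hr, map_fp, P_X]; rfl

variable [CharZero k]

theorem r_ne : S.r ≠ 0 := by
  intro h
  have := S.r_cube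
  rw [h, zero_pow (by norm_num), ← map_zero S.P] at this
  exact fp_ne (S.P_inj this).symm

omit [CharZero k] in
theorem rat_eq (q : ℚ) : (q : RatFunc k) = algebraMap k[X] (RatFunc k) (C (q : k)) := by
  rw [RatFunc.algebraMap_C, map_ratCast]

omit [CharZero k] in
/-- derivatives of fractions -/
theorem D_frac (n d : k[X]) (hd : d ≠ 0) :
    S.D (algebraMap (RatFunc k) Ω (algebraMap k[X] (RatFunc k) n / algebraMap k[X] (RatFunc k) d)) =
      algebraMap (RatFunc k) Ω (algebraMap k[X] (RatFunc k) (derivative n * d - n * derivative d) /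
        algebraMap k[X] (RatFunc k) (d ^ 2)) := by
  have h1 : S.D (S.P n / S.P d) = S.P (derivative n * d - n * derivative d) / S.P (d ^ 2) := by
    have hd' : S.P d ≠ 0 := fun h => hd (S.P_inj (h.trans (map_zero _).symm))
    rw [Derivation.leibniz_div, D_P, D_P, map_sub, map_mul, map_mul, map_pow]
    simp only [smul_eq_mul]
    field_simp
  have h2 := map_div₀ (algebraMap (RatFunc k) Ω) (algebraMap k[X] (RatFunc k) n)
    (algebraMap k[X] (RatFunc k) d)
  rw [h2, map_div₀ (algebraMap (RatFunc k) Ω)]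
  exact h1

/-- the valuation at infinity -/
noncomputable def vI (k : Type) [Field k] : Valuation (RatFunc k) ℤᵐ⁰ := by
  classical
  exact RatFunc.inftyValuation k

theorem vI_poly {k : Type} [Field k] {p : k[X]} (hp : p ≠ 0) :
    vI k (algebraMap k[X] (RatFunc k) p) = exp (p.natDegree : ℤ) := by
  classical
  exact RatFunc.inftyValuation.polynomial (F := k) hp

theorem vI_poly_le {k : Type} [Field k] {p : k[X]} {n : ℤ} (h : p ≠ 0 → (p.natDegree : ℤ) ≤ n) :
    vI k (algebraMap k[X] (RatFunc k) p) ≤ exp n := by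
  by_cases hp : p = 0
  · rw [hp, map_zero, map_zero]; exact zero_le
  · rw [vI_poly hp, exp_le_exp]; exact h hp

theorem vI_X {k : Type} [Field k] : vI k RatFunc.X = exp 1 := by
  have h := vI_poly (k := k) (X_ne_zero)
  rwa [RatFunc.algebraMap_X, natDegree_X] at h

/-- the numerator of the derivative of a fraction regular at infinity -/
theorem deg_num {k : Type} [Field k] {n d : k[X]} (h : n.natDegree ≤ d.natDegree)
    (h0 : derivative n * d - n * derivative d ≠ 0) :
    (derivative n * d - n * derivative d).natDegree + 2 ≤ 2 * d.natDegree := by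
  have hd : d ≠ 0 := by
    rintro rfl
    simp at h0
  by_cases hN : d.natDegree = 0
  · exfalso
    apply h0
    rw [eq_C_of_natDegree_eq_zero hN, eq_C_of_natDegree_eq_zero (Nat.le_zero.1 (h.trans hN.le))]
    simp
  obtain ⟨c, hc⟩ : ∃ c, c = n.coeff d.natDegree / d.leadingCoeff := ⟨_, rfl⟩
  obtain ⟨m, hm⟩ : ∃ m, m = n - C c * d := ⟨_, rfl⟩
  have e1 : n = m + C c * d := by rw [hm]; ring
  have hmd : m.natDegree < d.natDegree := by
    have h1 : m.natDegree ≤ d.natDegree := by
      rw [hm]
      refine (natDegree_sub_le _ _).trans (max_le h (natDegree_C_mul_le _ _))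
    refine lt_of_le_of_ne h1 fun h2 => ?_
    have h3 : m.coeff d.natDegree = 0 := by
      rw [hm, coeff_sub, coeff_C_mul, hc]
      show _ - _ / d.leadingCoeff * d.leadingCoeff = 0
      rw [div_mul_cancel₀ _ (leadingCoeff_ne_zero.2 hd), sub_self]
    rw [← h2] at h3
    have h4 : m = 0 := leadingCoeff_eq_zero.1 h3
    rw [h4, natDegree_zero] at h2
    exact hN h2.symm
  have e2 : derivative n * d - n * derivative d = derivative m * d - m * derivative d := by
    rw [e1]
    simp only [derivative_add, derivative_mul, derivative_C]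
    ring
  rw [e2] at h0 ⊢
  have hm0 : m ≠ 0 := by
    intro h
    rw [h] at h0
    simp at h0
  have hdd : (derivative d).natDegree ≤ d.natDegree - 1 := natDegree_derivative_le d
  have h2 : (m * derivative d).natDegree ≤ m.natDegree + (d.natDegree - 1) :=
    natDegree_mul_le.trans (by omega)
  by_cases hm1 : m.natDegree = 0
  · have h3 : derivative m = 0 := by
      rw [eq_C_of_natDegree_eq_zero hm1, derivative_C]
    rw [h3, zero_mul, zero_sub, natDegree_neg]
    omega
  · have hdm : (derivative m).natDegree ≤ m.natDegree - 1 := natDegree_derivative_le m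
    have h1 : (derivative m * d).natDegree ≤ (m.natDegree - 1) + d.natDegree :=
      natDegree_mul_le.trans (by omega)
    have h4 := natDegree_sub_le (derivative m * d) (m * derivative d)
    omega

/-- the local data at infinity -/
noncomputable def inf : LD (RatFunc k) Ω ℤᵐ⁰ where
  v := vI k
  hv q := by
    rw [rat_eq, ← exp_zero]
    exact vI_poly_le fun _ => by rw [natDegree_C]; simp
  ρ := S.r / S.x ^ 2
  g := algebraMap k[X] (RatFunc k) (fp k) / RatFunc.X ^ 6
  hρ := by
    rw [div_pow, S.r_cube, map_div₀, map_pow, ← pow_mul]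
    rfl
  hg := by
    rw [map_div₀, map_pow, vI_X, vI_poly fp_ne, natDegree_fp, ← exp_nsmul, ← exp_sub, ← exp_zero]
    norm_num
  h1 z hz := by
    have h : vI k (algebraMap k[X] (RatFunc k) (fp k) / RatFunc.X ^ 6) = 1 := by
      rw [map_div₀, map_pow, vI_X, vI_poly fp_ne, natDegree_fp, ← exp_nsmul, ← exp_sub,
        ← exp_zero]
      norm_num
    rw [map_mul, h, mul_one, map_pow] at hz
    exact (pow_le_one_iff (by norm_num)).1 hz
  h2 z hz := by
    have h : vI k (algebraMap k[X] (RatFunc k) (fp k) / RatFunc.X ^ 6) = 1 := by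
      rw [map_div₀, map_pow, vI_X, vI_poly fp_ne, natDegree_fp, ← exp_nsmul, ← exp_sub,
        ← exp_zero]
      norm_num
    rw [map_mul, map_pow _ (_ / _), h, one_pow, mul_one, map_pow] at hz
    exact (pow_le_one_iff (by norm_num)).1 hz
  δ := S.x ^ 2 • S.D
  hδ z hz := by
    have hd0 : z.denom ≠ 0 := z.denom_ne_zero
    have hz2 : z = algebraMap k[X] (RatFunc k) z.num / algebraMap k[X] (RatFunc k) z.denom :=
      z.num_div_denom.symm
    obtain ⟨n, hn⟩ : ∃ n, n = z.num := ⟨_, rfl⟩
    obtain ⟨d, hd⟩ : ∃ d, d = z.denom := ⟨_, rfl⟩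
    rw [← hn, ← hd] at hz2
    rw [← hd] at hd0
    have hdeg : n.natDegree ≤ d.natDegree := by
      by_cases hn0 : n = 0
      · rw [hn0, natDegree_zero]; exact Nat.zero_le _
      rw [hz2, map_div₀, vI_poly hn0, vI_poly hd0, ← exp_sub, ← exp_zero, exp_le_exp] at hz
      omega
    refine ⟨RatFunc.X ^ 2 * (algebraMap k[X] (RatFunc k) (derivative n * d - n * derivative d) /
      algebraMap k[X] (RatFunc k) (d ^ 2)), ?_, ?_⟩
    · rw [map_mul, map_div₀, map_pow, map_pow, map_pow, vI_X, vI_poly hd0]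
      have h1 : vI k (algebraMap k[X] (RatFunc k) (derivative n * d - n * derivative d)) ≤
          exp (2 * (d.natDegree : ℤ) - 2) := by
        refine vI_poly_le fun h => ?_
        have := deg_num hdeg h
        omega
      rw [← exp_nsmul, ← exp_nsmul]
      calc exp (2 • (1 : ℤ)) * (vI k (algebraMap k[X] (RatFunc k)
            (derivative n * d - n * derivative d)) / exp (2 • (d.natDegree : ℤ)))
          ≤ exp (2 • (1 : ℤ)) * (exp (2 * (d.natDegree : ℤ) - 2) / exp (2 • (d.natDegree : ℤ))) :=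
            mul_le_mul_right (div_le_div_iff_of_pos_right (zero_lt_iff.2 exp_ne_zero) |>.2 h1) _
        _ = 1 := by
            rw [← exp_sub, ← exp_add, ← exp_zero]
            congr 1
            simp
    · rw [Derivation.smul_apply, hz2, S.D_frac n d hd0, map_mul, smul_eq_mul,
        map_pow (algebraMap (RatFunc k) Ω)]
      rfl
  σ := S.σ
  ω := RatFunc.C S.ω
  hω := by rw [← map_one RatFunc.C, ← map_pow, ← map_add, ← map_add, S.hω, map_zero]
  hσ := by
    rw [map_div₀, map_pow, S.hσ]
    have : S.σ S.x = S.x := S.σ.commutes _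
    rw [this]
    ring

/-- the local data at a finite place -/
noncomputable def fin (Q : HeightOneSpectrum k[X]) : LD (RatFunc k) Ω ℤᵐ⁰ where
  v := Q.valuation (RatFunc k)
  hv q := by rw [rat_eq]; exact Q.valuation_le_one _
  ρ := S.r
  g := algebraMap k[X] (RatFunc k) (fp k)
  hρ := S.r_cube
  hg := Q.valuation_le_one _
  h1 z hz := by
    by_contra hcon
    push Not at hcon
    have h1 := exp_one_le hcon
    have h2 := v_fp Q
    rw [map_mul, map_pow] at hz
    have h3 : exp 3 * exp (-1) ≤ Q.valuation (RatFunc k) z ^ 3 *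
        Q.valuation (RatFunc k) (algebraMap k[X] (RatFunc k) (fp k)) := by
      refine mul_le_mul' ?_ h2
      have : (exp 3 : ℤᵐ⁰) = exp 1 ^ 3 := by rw [← exp_nsmul]; norm_num
      rw [this]
      exact pow_le_pow_left₀ zero_le h1 3
    have h4 := h3.trans hz
    rw [← exp_add, ← exp_zero, exp_le_exp] at h4
    norm_num at h4
  h2 z hz := by
    by_contra hcon
    push Not at hcon
    have h1 := exp_one_le hcon
    have h2 := v_fp Q
    rw [map_mul, map_pow, map_pow] at hz
    have h3 : exp 3 * exp (-2) ≤ Q.valuation (RatFunc k) z ^ 3 *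
        Q.valuation (RatFunc k) (algebraMap k[X] (RatFunc k) (fp k)) ^ 2 := by
      refine mul_le_mul' ?_ ?_
      · have : (exp 3 : ℤᵐ⁰) = exp 1 ^ 3 := by rw [← exp_nsmul]; norm_num
        rw [this]
        exact pow_le_pow_left₀ zero_le h1 3
      · have : (exp (-2) : ℤᵐ⁰) = exp (-1) ^ 2 := by rw [← exp_nsmul]; norm_num
        rw [this]
        exact pow_le_pow_left₀ zero_le h2 2
    have h4 := h3.trans hz
    rw [← exp_add, ← exp_zero, exp_le_exp] at h4
    norm_num at h4
  δ := S.D
  hδ z hz := by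
    obtain ⟨n, d, hnd⟩ := Q.exists_primeCompl_mul_eq_of_integer z hz
    have hd0 : (d : k[X]) ≠ 0 := fun h => d.2 (by rw [h]; exact Q.asIdeal.zero_mem)
    have hd1 : algebraMap k[X] (RatFunc k) (d : k[X]) ≠ 0 := by
      intro h
      exact hd0 (IsFractionRing.injective k[X] (RatFunc k) (h.trans (map_zero _).symm))
    have hz2 : z = algebraMap k[X] (RatFunc k) n / algebraMap k[X] (RatFunc k) (d : k[X]) := by
      field_simp
      exact hnd
    refine ⟨_, ?_, by rw [hz2]; exact S.D_frac n d hd0⟩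
    rw [map_div₀, map_pow, map_pow]
    have hvd : Q.valuation (RatFunc k) (algebraMap k[X] (RatFunc k) (d : k[X])) = 1 := by
      rw [HeightOneSpectrum.valuation_of_algebraMap]
      exact (Q.intValuation_eq_one_iff_mem_primeCompl _).2 d.2
    rw [hvd, one_pow, div_one]
    exact Q.valuation_le_one _
  σ := S.σ
  ω := RatFunc.C S.ω
  hω := by rw [← map_one RatFunc.C, ← map_pow, ← map_add, ← map_add, S.hω, map_zero]
  hσ := S.hσ

/-- The numerators of the holomorphic forms `w dx / r²`. -/
theorem hol {w : Ω} (h1 : ∀ Q : HeightOneSpectrum k[X], w ∈ (S.fin Q).M)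
    (h2 : w / S.x ^ 2 ∈ S.inf.M) :
    ∃ p : k[X], p.natDegree ≤ 2 ∧ ∃ c : k, w = S.P p + S.P (C c) * S.r := by
  have : CharZero (RatFunc k) :=
    charZero_of_injective_algebraMap (algebraMap k (RatFunc k)).injective
  obtain ⟨a0, a1, a2, i0, i1, i2, e⟩ := h2
  -- coordinates of `w`
  have hx := S.x_ne
  have e' : w = algebraMap (RatFunc k) Ω (a0 * RatFunc.X ^ 2) + algebraMap (RatFunc k) Ω a1 * S.r +
      algebraMap (RatFunc k) Ω (a2 / RatFunc.X ^ 2) * S.r ^ 2 := by
    have e2 : w = (algebraMap (RatFunc k) Ω a0 + algebraMap (RatFunc k) Ω a1 * (S.r / S.x ^ 2) +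
      algebraMap (RatFunc k) Ω a2 * (S.r / S.x ^ 2) ^ 2) * S.x ^ 2 := by
      rw [← div_eq_iff (pow_ne_zero 2 hx)]
      exact e
    rw [e2, map_mul, map_div₀, map_pow]
    have e3 : algebraMap (RatFunc k) Ω RatFunc.X = S.x := rfl
    rw [e3]
    field_simp
  have key : ∀ Q : HeightOneSpectrum k[X],
      Q.valuation (RatFunc k) (a0 * RatFunc.X ^ 2) ≤ 1 ∧ Q.valuation (RatFunc k) a1 ≤ 1 ∧
      Q.valuation (RatFunc k) (a2 / RatFunc.X ^ 2) ≤ 1 := by
    intro Q
    obtain ⟨b0, b1, b2, j0, j1, j2, e4⟩ := h1 Q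
    have e5 : algebraMap (RatFunc k) Ω (a0 * RatFunc.X ^ 2 - b0) +
        algebraMap (RatFunc k) Ω (a1 - b1) * (S.fin Q).ρ +
        algebraMap (RatFunc k) Ω (a2 / RatFunc.X ^ 2 - b2) * (S.fin Q).ρ ^ 2 = 0 := by
      have e6 : (S.fin Q).ρ = S.r := rfl
      rw [e6] at e4 ⊢
      rw [map_sub, map_sub, map_sub]
      linear_combination e4 - e'
    obtain ⟨f0, f1, f2⟩ := (S.fin Q).linInd S.r_ne e5
    rw [sub_eq_zero] at f0 f1 f2
    rw [f0, f1, f2]
    exact ⟨j0, j1, j2⟩
  obtain ⟨p0, hp0⟩ := HeightOneSpectrum.mem_integers_of_valuation_le_one _ _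
    (fun Q => (key Q).1)
  obtain ⟨p1, hp1⟩ := HeightOneSpectrum.mem_integers_of_valuation_le_one _ _
    (fun Q => (key Q).2.1)
  obtain ⟨p2, hp2⟩ := HeightOneSpectrum.mem_integers_of_valuation_le_one _ _
    (fun Q => (key Q).2.2)
  have i0' : vI k a0 ≤ 1 := i0
  have i1' : vI k a1 ≤ 1 := i1
  have i2' : vI k a2 ≤ 1 := i2
  have d0 : p0.natDegree ≤ 2 := by
    by_cases h : p0 = 0
    · rw [h, natDegree_zero]; exact Nat.zero_le _
    have h3 : vI k (algebraMap k[X] (RatFunc k) p0) ≤ exp 2 := by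
      rw [hp0, map_mul, map_pow, vI_X, ← exp_nsmul]
      calc vI k a0 * exp (2 • (1 : ℤ)) ≤ 1 * exp (2 • (1 : ℤ)) := mul_le_mul_left i0' _
        _ = exp 2 := by rw [one_mul]; norm_num
    rw [vI_poly h, exp_le_exp] at h3
    omega
  have d1 : p1.natDegree = 0 := by
    by_cases h : p1 = 0
    · rw [h, natDegree_zero]
    rw [← hp1, vI_poly h, ← exp_zero, exp_le_exp] at i1'
    omega
  have d2 : p2 = 0 := by
    by_contra h
    have h3 : vI k (algebraMap k[X] (RatFunc k) p2) ≤ exp (-2) := by
      rw [hp2, map_div₀, map_pow, vI_X, ← exp_nsmul]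
      calc vI k a2 / exp (2 • (1 : ℤ)) ≤ 1 / exp (2 • (1 : ℤ)) :=
            (div_le_div_iff_of_pos_right (zero_lt_iff.2 exp_ne_zero)).2 i2'
        _ = exp (-2) := by rw [← exp_zero, ← exp_sub]; norm_num
    rw [vI_poly h, exp_le_exp] at h3
    omega
  refine ⟨p0, d0, p1.coeff 0, ?_⟩
  rw [← eq_C_of_natDegree_eq_zero d1, e', ← hp0, ← hp1, ← hp2, d2]
  show _ = algebraMap (RatFunc k) Ω (algebraMap k[X] (RatFunc k) p0) +
    algebraMap (RatFunc k) Ω (algebraMap k[X] (RatFunc k) p1) * S.r
  simp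

end Ctx

end Pool.Agent.Y970.EC
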