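import Mathlib

/-!
# Local analysis of the points of `b³ = 2(a⁶ + 7a + 1)` in a cubic extension

`L` is a field with a valuation `v`, `ρ³ = g ∈ L`, and `a, b ∈ L(ρ)` satisfy
`b³ = 2(a⁶ + 7a + 1)`. The elements `δ a / b²`, `a δ a / b²`, `a² δ a / b²`, `δ a / b` have
`v`-integral coordinates with respect to `1, ρ, ρ²` after multiplication by `ρ²`.
-/

set_option autoImplicit false

namespace Pool.Agent.Y970.EC

open Polynomial

section integrality

variable {L Ω : Type} [Field L] [Field Ω] [Algebra L Ω] {Γ : Type}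
  [LinearOrderedCommGroupWithZero Γ]

/-- the structure map of the valuation ring -/
noncomputable def str (Ω : Type) [Field Ω] [Algebra L Ω] (v : Valuation L Γ) :
    v.valuationSubring →+* Ω :=
  (algebraMap L Ω).comp v.valuationSubring.subtype

/-- `z` is integral over the valuation ring of `v` -/
def Int (v : Valuation L Γ) (z : Ω) : Prop := (str Ω v).IsIntegralElem z

variable {v : Valuation L Γ}

theorem Int.add {x y : Ω} (hx : Int v x) (hy : Int v y) : Int v (x + y) :=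
  RingHom.IsIntegralElem.add _ hx hy

theorem Int.mul {x y : Ω} (hx : Int v x) (hy : Int v y) : Int v (x * y) :=
  RingHom.IsIntegralElem.mul _ hx hy

theorem int_k {a : L} (ha : v a ≤ 1) : Int v (algebraMap L Ω a) :=
  RingHom.isIntegralElem_map (str Ω v) (x := (⟨a, ha⟩ : v.valuationSubring))

theorem Int.pow {x : Ω} (hx : Int v x) (n : ℕ) : Int v (x ^ n) := by
  induction n with
  | zero =>
    rw [pow_zero, ← map_one (algebraMap L Ω)]
    exact int_k (by rw [map_one])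
  | succ n ih => rw [pow_succ]; exact ih.mul hx

theorem Int.of_k {a : L} (h : Int v (algebraMap L Ω a)) : v a ≤ 1 := by
  have h1 : IsIntegral v.valuationSubring a := by
    obtain ⟨p, hp, h2⟩ := h
    refine ⟨p, hp, ?_⟩
    have h3 : algebraMap L Ω (p.eval₂ (algebraMap v.valuationSubring L) a) = 0 := by
      rw [Polynomial.hom_eval₂]
      exact h2
    exact (map_eq_zero _).1 h3
  exact (Valuation.valuationSubring.integers v).mem_of_integral h1

theorem Int.map {z : Ω} (h : Int v z) (σ : Ω ≃ₐ[L] Ω) : Int v (σ z) := by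
  obtain ⟨p, hp, h2⟩ := h
  refine ⟨p, hp, ?_⟩
  have h3 : (σ : Ω →+* Ω) (p.eval₂ (str Ω v) z) = 0 := by rw [h2, map_zero]
  rw [Polynomial.hom_eval₂] at h3
  have h4 : (σ : Ω →+* Ω).comp (str Ω v) = str Ω v := by
    ext x
    exact σ.commutes _
  rw [h4] at h3
  exact h3

theorem Int.of_pow {z : Ω} {n : ℕ} (hn : 0 < n) (h : Int v (z ^ n)) : Int v z := by
  let := (str Ω v).toAlgebra
  have h1 : IsIntegral v.valuationSubring (z ^ n) := h
  exact IsIntegral.of_pow hn h1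

variable [CharZero L] [Algebra.IsAlgebraic L Ω]

/-- Every element has an integral reciprocal after a suitable rational translation. -/
theorem exists_c (hv : ∀ q : ℚ, v (q : L) ≤ 1) (a : Ω) :
    ∃ c : ℚ, a ≠ (c : Ω) ∧ Int v ((a - (c : Ω))⁻¹) := by
  classical
  have halg : IsIntegral L a := Algebra.IsIntegral.isIntegral a
  set m := minpoly L a with hm
  have hm0 : m ≠ 0 := minpoly.ne_zero halg
  have hma : aeval a m = 0 := minpoly.aeval _ _
  -- the coefficient with the largest valuation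
  obtain ⟨n₀, hn₀, hmax⟩ := Finset.exists_max_image m.support (fun n => v (m.coeff n))
    (support_nonempty.2 hm0)
  have hμ : m.coeff n₀ ≠ 0 := mem_support_iff.1 hn₀
  have hμv : v (m.coeff n₀) ≠ 0 := (_root_.map_ne_zero v).2 hμ
  have hle : ∀ n, v ((C (m.coeff n₀)⁻¹ * m).coeff n) ≤ 1 := by
    intro n
    rw [coeff_C_mul, map_mul, map_inv₀]
    by_cases hn : n ∈ m.support
    · have := hmax n hn
      rw [inv_mul_le_iff₀ (zero_lt_iff.2 hμv), mul_one]
      exact this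
    · rw [notMem_support_iff.1 hn, map_zero, mul_zero]; exact zero_le
  have hone : (C (m.coeff n₀)⁻¹ * m).coeff n₀ = 1 := by
    rw [coeff_C_mul, inv_mul_cancel₀ hμ]
  -- as a polynomial over the valuation ring
  obtain ⟨N, hN⟩ : ∃ N : (v.valuationSubring)[X],
      N.map v.valuationSubring.subtype = C (m.coeff n₀)⁻¹ * m := by
    have : C (m.coeff n₀)⁻¹ * m ∈ lifts v.valuationSubring.subtype := by
      rw [lifts_iff_coeff_lifts]
      intro n
      exact ⟨⟨_, hle n⟩, rfl⟩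
    exact (mem_lifts _).1 this
  have hNa : N.eval₂ (str Ω v) a = 0 := by
    have h1 : (N.map v.valuationSubring.subtype).eval₂ (algebraMap L Ω) a = 0 := by
      rw [hN, ← aeval_def, map_mul, hma, mul_zero]
    rw [eval₂_map] at h1
    exact h1
  -- the rational numbers in the valuation ring
  have hv' : ∀ q : ℚ, algebraMap ℚ L q ∈ v.valuationSubring.toSubring := fun q => by
    show v (algebraMap ℚ L q) ≤ 1
    rw [eq_ratCast]; exact hv q
  let e : ℚ →+* v.valuationSubring :=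
    (algebraMap ℚ L).codRestrict v.valuationSubring.toSubring hv'
  let ρ := IsLocalRing.residue v.valuationSubring
  have hN0 : N.map ρ ≠ 0 := by
    intro h0
    have h1 : ρ (N.coeff n₀) = 0 := by rw [← coeff_map, h0, coeff_zero]
    have h2 : N.coeff n₀ = 1 := by
      apply v.valuationSubring.subtype_injective
      rw [← coeff_map, hN, hone, map_one]
    rw [h2, map_one] at h1
    exact one_ne_zero h1
  obtain ⟨c, hc⟩ : ∃ c : ℚ, (N.map ρ).eval (ρ (e c)) ≠ 0 := by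
    by_contra hcon
    push Not at hcon
    apply hN0
    refine eq_zero_of_infinite_isRoot _ ?_
    refine Set.Infinite.mono (s := Set.range fun c : ℚ => ρ (e c)) ?_ ?_
    · rintro _ ⟨c, rfl⟩
      exact hcon c
    · exact Set.infinite_range_of_injective (ρ.comp e).injective
  have hunit : IsUnit (N.eval (e c)) := by
    rw [← IsLocalRing.residue_ne_zero_iff_isUnit]
    rw [eval_map, eval₂_hom] at hc
    exact hc
  -- translate
  set M := N.comp (X + C (e c)) with hMdef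
  have hM0 : M.coeff 0 = N.eval (e c) := by
    rw [coeff_zero_eq_eval_zero, hMdef, eval_comp]; simp
  have hMx : M.eval₂ (str Ω v) (a - (c : Ω)) = 0 := by
    have h1 : str Ω v (e c) = (c : Ω) := by
      show algebraMap L Ω (algebraMap ℚ L c) = c
      rw [eq_ratCast, map_ratCast]
    rw [hMdef, eval₂_comp, eval₂_add, eval₂_X, eval₂_C, h1, sub_add_cancel, hNa]
  have hx0 : a - (c : Ω) ≠ 0 := by
    intro h0
    rw [h0, eval₂_at_zero] at hMx
    have : M.coeff 0 ≠ 0 := by rw [hM0]; exact hunit.ne_zero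
    have h2 : Function.Injective (str Ω v) :=
      (algebraMap L Ω).injective.comp v.valuationSubring.subtype_injective
    exact this ((map_eq_zero_iff _ h2).1 hMx)
  refine ⟨c, sub_ne_zero.1 hx0, ?_⟩
  let : Invertible (a - (c : Ω)) := invertibleOfNonzero hx0
  have h1 := (eval₂_reverse_eq_zero_iff (str Ω v) (a - (c : Ω)) M).2 hMx
  rw [invOf_eq_inv] at h1
  have hlead : M.reverse.leadingCoeff = N.eval (e c) := by
    rw [reverse_leadingCoeff, trailingCoeff, natTrailingDegree_eq_zero.2, hM0]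
    right
    rw [hM0]; exact hunit.ne_zero
  obtain ⟨u, hu⟩ := hunit
  refine ⟨C ((u⁻¹ : (v.valuationSubring)ˣ) : v.valuationSubring) * M.reverse, ?_, ?_⟩
  · rw [Monic, leadingCoeff_mul, leadingCoeff_C, hlead, ← hu]
    simp
  · rw [eval₂_mul, h1, mul_zero]

end integrality

/-- the polynomial `2(x⁶ + 7x + 1)` after the substitution `x = c + 1/y` -/
noncomputable def Fc (c : ℚ) : ℚ[X] :=
  2 * ((C c * X + 1) ^ 6 + 7 * (C c * X + 1) * X ^ 5 + X ^ 6)

/-- the polynomial `2(x⁶ + 7x + 1)` -/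
def ff {R : Type} [CommRing R] (x : R) : R := 2 * (x ^ 6 + 7 * x + 1)

theorem aeval_Fc {R : Type} [Field R] [CharZero R] (c : ℚ) (y : R) :
    Polynomial.aeval y (Fc c) =
      2 * (((c : R) * y + 1) ^ 6 + 7 * ((c : R) * y + 1) * y ^ 5 + y ^ 6) := by
  simp [Fc, map_ofNat]

theorem aeval_Fc' {R : Type} [Field R] [CharZero R] (c : ℚ) {y : R} (hy : y ≠ 0) :
    Polynomial.aeval y (Fc c) = y ^ 6 * ff ((c : R) + y⁻¹) := by
  rw [aeval_Fc, ff]
  field_simp

/-- `x⁶ + 7x + 1` and its derivative have no common root -/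
theorem no_common {R : Type} [Field R] [CharZero R] {x : R} (h1 : x ^ 6 + 7 * x + 1 = 0)
    (h2 : 6 * x ^ 5 + 7 = 0) : False := by
  have h3 : 35 * x + 6 = 0 := by linear_combination 6 * h1 - x * h2
  have h4 : x = -6 / 35 := by
    have : (35 : R) ≠ 0 := by norm_num
    field_simp
    linear_combination h3
  rw [h4] at h2
  norm_num at h2

theorem Fc_coprime (c : ℚ) : IsCoprime (Fc c) (Polynomial.derivative (Fc c)) := by
  rw [Polynomial.isCoprime_iff_aeval_ne_zero_of_isAlgClosed ℚ ℂ]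
  intro y
  by_contra hcon
  push Not at hcon
  obtain ⟨h1, h2⟩ := hcon
  by_cases hy : y = 0
  · rw [hy, aeval_Fc] at h1
    norm_num at h1
  have h3 : ff ((c : ℂ) + y⁻¹) = 0 := by
    rw [aeval_Fc' c hy] at h1
    rcases mul_eq_zero.1 h1 with h | h
    · exact absurd h (pow_ne_zero 6 hy)
    · exact h
  have h4 : 6 * ((c : ℂ) + y⁻¹) ^ 5 + 7 = 0 := by
    have e : y * Polynomial.aeval y (Polynomial.derivative (Fc c)) =
        6 * Polynomial.aeval y (Fc c) - 2 * y ^ 5 * (6 * ((c : ℂ) + y⁻¹) ^ 5 + 7) := by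
      rw [aeval_Fc]
      simp only [Fc, Polynomial.derivative_mul,
        Polynomial.derivative_add, Polynomial.derivative_pow,
        Polynomial.derivative_X, Polynomial.derivative_one, Polynomial.derivative_C,
        Polynomial.derivative_ofNat, map_mul, map_add, map_pow, map_one,
        map_ofNat, map_zero, Polynomial.aeval_X, Polynomial.aeval_C]
      have e1 : (algebraMap ℚ ℂ) c = (c : ℂ) := rfl
      rw [e1]
      simp
      field_simp
      ring
    rw [h2, h1] at e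
    have h5 : 2 * y ^ 5 * (6 * ((c : ℂ) + y⁻¹) ^ 5 + 7) = 0 := by linear_combination e
    rcases mul_eq_zero.1 h5 with h | h
    · exact absurd h (mul_ne_zero two_ne_zero (pow_ne_zero 5 hy))
    · exact h
  have h5 : ((c : ℂ) + y⁻¹) ^ 6 + 7 * ((c : ℂ) + y⁻¹) + 1 = 0 := by
    rw [ff] at h3
    rcases mul_eq_zero.1 h3 with h | h
    · exact absurd h two_ne_zero
    · exact h
  exact no_common h5 h4


/-- the data for the local analysis -/
structure LD (L Ω : Type) [Field L] [Field Ω] [Algebra L Ω] (Γ : Type)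
    [LinearOrderedCommGroupWithZero Γ] where
  /-- the valuation -/
  v : Valuation L Γ
  hv : ∀ q : ℚ, v (q : L) ≤ 1
  /-- the cube root -/
  ρ : Ω
  /-- its cube -/
  g : L
  hρ : ρ ^ 3 = algebraMap L Ω g
  hg : v g ≤ 1
  h1 : ∀ z : L, v (z ^ 3 * g) ≤ 1 → v z ≤ 1
  h2 : ∀ z : L, v (z ^ 3 * g ^ 2) ≤ 1 → v z ≤ 1
  /-- the derivation -/
  δ : Derivation ℤ Ω Ω
  hδ : ∀ z : L, v z ≤ 1 → ∃ w : L, v w ≤ 1 ∧ δ (algebraMap L Ω z) = algebraMap L Ω w
  /-- the automorphism -/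
  σ : Ω ≃ₐ[L] Ω
  /-- the root of unity -/
  ω : L
  hω : 1 + ω + ω ^ 2 = 0
  hσ : σ ρ = algebraMap L Ω ω * ρ

namespace LD

variable {L Ω : Type} [Field L] [Field Ω] [Algebra L Ω] {Γ : Type}
  [LinearOrderedCommGroupWithZero Γ] (S : LD L Ω Γ)

/-- the elements with integral coordinates -/
def M : Set Ω := {z | ∃ w0 w1 w2 : L, S.v w0 ≤ 1 ∧ S.v w1 ≤ 1 ∧ S.v w2 ≤ 1 ∧
  z = algebraMap L Ω w0 + algebraMap L Ω w1 * S.ρ + algebraMap L Ω w2 * S.ρ ^ 2}

theorem v_add {a b : L} (ha : S.v a ≤ 1) (hb : S.v b ≤ 1) : S.v (a + b) ≤ 1 :=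
  (S.v.map_add a b).trans (max_le ha hb)

theorem v_mul {a b : L} (ha : S.v a ≤ 1) (hb : S.v b ≤ 1) : S.v (a * b) ≤ 1 := by
  rw [map_mul]; exact mul_le_one' ha hb

theorem M_add {x y : Ω} (hx : x ∈ S.M) (hy : y ∈ S.M) : x + y ∈ S.M := by
  obtain ⟨a, b, c, ha, hb, hc, rfl⟩ := hx
  obtain ⟨a', b', c', ha', hb', hc', rfl⟩ := hy
  refine ⟨a + a', b + b', c + c', S.v_add ha ha', S.v_add hb hb', S.v_add hc hc', ?_⟩
  simp only [map_add]; ring

theorem M_mul {x y : Ω} (hx : x ∈ S.M) (hy : y ∈ S.M) : x * y ∈ S.M := by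
  obtain ⟨a, b, c, ha, hb, hc, rfl⟩ := hx
  obtain ⟨a', b', c', ha', hb', hc', rfl⟩ := hy
  refine ⟨a * a' + (b * c' + c * b') * S.g, a * b' + b * a' + c * c' * S.g,
    a * c' + b * b' + c * a', ?_, ?_, ?_, ?_⟩
  · exact S.v_add (S.v_mul ha ha') (S.v_mul (S.v_add (S.v_mul hb hc') (S.v_mul hc hb')) S.hg)
  · exact S.v_add (S.v_add (S.v_mul ha hb') (S.v_mul hb ha')) (S.v_mul (S.v_mul hc hc') S.hg)
  · exact S.v_add (S.v_add (S.v_mul ha hc') (S.v_mul hb hb')) (S.v_mul hc ha')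
  · simp only [map_add, map_mul, ← S.hρ]; ring

theorem M_k {a : L} (ha : S.v a ≤ 1) : algebraMap L Ω a ∈ S.M :=
  ⟨a, 0, 0, ha, by rw [map_zero]; exact zero_le_one, by rw [map_zero]; exact zero_le_one,
    by simp⟩

theorem M_ρ : S.ρ ∈ S.M :=
  ⟨0, 1, 0, by rw [map_zero]; exact zero_le_one, by rw [map_one],
    by rw [map_zero]; exact zero_le_one, by simp⟩

theorem M_rat (q : ℚ) : (q : Ω) ∈ S.M := by
  have := S.M_k (S.hv q)
  rwa [map_ratCast] at this

theorem M_neg {x : Ω} (hx : x ∈ S.M) : -x ∈ S.M := by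
  have := S.M_mul (S.M_rat (-1)) hx
  simpa using this

theorem M_pow {x : Ω} (hx : x ∈ S.M) (n : ℕ) : x ^ n ∈ S.M := by
  induction n with
  | zero => simpa using S.M_rat 1
  | succ n ih => rw [pow_succ]; exact S.M_mul ih hx

theorem M_aeval [CharZero Ω] {x : Ω} (hx : x ∈ S.M) (p : ℚ[X]) : aeval x p ∈ S.M := by
  induction p using Polynomial.induction_on with
  | C a => rw [aeval_C, eq_ratCast]; exact S.M_rat a
  | add p q hp hq => rw [map_add]; exact S.M_add hp hq
  | monomial n a h =>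
    rw [pow_succ, ← mul_assoc, map_mul, aeval_X]
    exact S.M_mul h hx

theorem hω3 : S.ω ^ 3 = 1 := by linear_combination (S.ω - 1) * S.hω

theorem v_ω : S.v S.ω ≤ 1 := by
  have h : S.v S.ω ^ 3 = 1 := by rw [← map_pow, S.hω3, map_one]
  by_contra hcon
  push Not at hcon
  have := one_lt_pow₀ hcon (n := 3) (by norm_num)
  rw [h] at this
  exact lt_irrefl _ this

/-- the coordinates by averaging over the conjugates -/
theorem proj [CharZero L] (z0 z1 z2 : L) (z w : Ω)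
    (hz : z = algebraMap L Ω z0 + algebraMap L Ω z1 * S.ρ + algebraMap L Ω z2 * S.ρ ^ 2)
    (hw : w = algebraMap L Ω S.ω) :
    algebraMap L Ω z0 = 1 / 3 * (z + S.σ z + S.σ (S.σ z)) ∧
    algebraMap L Ω z1 * S.ρ = 1 / 3 * (z + w * w * S.σ z + w * S.σ (S.σ z)) ∧
    algebraMap L Ω z2 * S.ρ ^ 2 = 1 / 3 * (z + w * S.σ z + w * w * S.σ (S.σ z)) := by
  have hww : 1 + w + w ^ 2 = 0 := by
    rw [hw, ← map_one (algebraMap L Ω), ← map_pow, ← map_add, ← map_add, S.hω, map_zero]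
  have hw3 : w ^ 3 = 1 := by linear_combination (w - 1) * hww
  have hσw : S.σ w = w := by rw [hw]; exact S.σ.commutes _
  have hσρ : S.σ S.ρ = w * S.ρ := by rw [hw]; exact S.hσ
  have e1 : S.σ z = algebraMap L Ω z0 + algebraMap L Ω z1 * (w * S.ρ) +
      algebraMap L Ω z2 * (w * S.ρ) ^ 2 := by
    rw [hz]
    simp only [map_add, map_mul, map_pow, AlgEquiv.commutes, hσρ]
  have e2 : S.σ (S.σ z) = algebraMap L Ω z0 + algebraMap L Ω z1 * (w * (w * S.ρ)) +
      algebraMap L Ω z2 * (w * (w * S.ρ)) ^ 2 := by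
    rw [e1]
    simp only [map_add, map_mul, map_pow, AlgEquiv.commutes, hσρ, hσw]
  have : CharZero Ω := charZero_of_injective_algebraMap (algebraMap L Ω).injective
  refine ⟨?_, ?_, ?_⟩
  · rw [e2, e1, hz]
    linear_combination (-(1/3) * algebraMap L Ω z1 * S.ρ - (1/3) *
      algebraMap L Ω z2 * S.ρ ^ 2 * (w ^ 2 - w + 1)) * hww
  · rw [e2, e1, hz]
    linear_combination (-(1/3) * algebraMap L Ω z0) * hww + (-(2/3) *
      algebraMap L Ω z1 * S.ρ - (1/3) * algebraMap L Ω z2 * S.ρ ^ 2 * (w + w ^ 2)) * hw3 -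
      (1/3) * algebraMap L Ω z2 * S.ρ ^ 2 * hww
  · rw [e2, e1, hz]
    linear_combination (-(1/3) * algebraMap L Ω z0) * hww + (- (1/3) *
      algebraMap L Ω z1 * S.ρ * w - (1/3) * algebraMap L Ω z2 * S.ρ ^ 2 * (2 + w ^ 3)) * hw3 -
      (1/3) * algebraMap L Ω z1 * S.ρ * hww

/-- linear independence of `1, ρ, ρ²` -/
theorem linInd [CharZero L] (hρ0 : S.ρ ≠ 0) {z0 z1 z2 : L}
    (h : algebraMap L Ω z0 + algebraMap L Ω z1 * S.ρ + algebraMap L Ω z2 * S.ρ ^ 2 = 0) :
    z0 = 0 ∧ z1 = 0 ∧ z2 = 0 := by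
  obtain ⟨f0, f1, f2⟩ := S.proj z0 z1 z2 0 _ h.symm rfl
  simp only [map_zero, mul_zero, add_zero] at f0 f1 f2
  refine ⟨(_root_.map_eq_zero _).1 f0, ?_, ?_⟩
  · rcases mul_eq_zero.1 f1 with h | h
    · exact (_root_.map_eq_zero _).1 h
    · exact absurd h hρ0
  · rcases mul_eq_zero.1 f2 with h | h
    · exact (_root_.map_eq_zero _).1 h
    · exact absurd h (pow_ne_zero 2 hρ0)

/-- the coordinates of an integral element are integral -/
theorem coord [CharZero L] (z0 z1 z2 : L)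
    (h : Int S.v (algebraMap L Ω z0 + algebraMap L Ω z1 * S.ρ + algebraMap L Ω z2 * S.ρ ^ 2)) :
    S.v z0 ≤ 1 ∧ S.v z1 ≤ 1 ∧ S.v z2 ≤ 1 := by
  obtain ⟨z, hz⟩ : ∃ z, z = algebraMap L Ω z0 + algebraMap L Ω z1 * S.ρ +
    algebraMap L Ω z2 * S.ρ ^ 2 := ⟨_, rfl⟩
  obtain ⟨w, hw⟩ : ∃ w, w = algebraMap L Ω S.ω := ⟨_, rfl⟩
  have : CharZero Ω := charZero_of_injective_algebraMap (algebraMap L Ω).injective
  rw [← hz] at h
  have i0 : Int S.v z := h
  have i1 : Int S.v (S.σ z) := i0.map _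
  have i2 : Int S.v (S.σ (S.σ z)) := i1.map _
  have iw : Int S.v w := by rw [hw]; exact int_k S.v_ω
  have i3 : Int S.v (algebraMap L Ω ((1 / 3 : ℚ) : L)) := int_k (S.hv _)
  have h3 : algebraMap L Ω ((1 / 3 : ℚ) : L) = 1 / 3 := by
    rw [map_ratCast]; push_cast; ring
  obtain ⟨f0, f1, f2⟩ := S.proj z0 z1 z2 z w hz hw
  rw [← h3] at f0 f1 f2
  have j0 : Int S.v (algebraMap L Ω z0) := by
    rw [f0]; exact i3.mul ((i0.add i1).add i2)
  have j1 : Int S.v (algebraMap L Ω z1 * S.ρ) := by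
    rw [f1]; exact i3.mul ((i0.add ((iw.mul iw).mul i1)).add (iw.mul i2))
  have j2 : Int S.v (algebraMap L Ω z2 * S.ρ ^ 2) := by
    rw [f2]; exact i3.mul ((i0.add (iw.mul i1)).add ((iw.mul iw).mul i2))
  refine ⟨j0.of_k, S.h1 z1 ?_, S.h2 z2 ?_⟩
  · have := j1.pow 3
    rw [mul_pow, S.hρ, ← map_pow, ← map_mul] at this
    exact this.of_k
  · have := j2.pow 3
    rw [mul_pow, ← pow_mul, mul_comm 2 3, pow_mul, S.hρ, ← map_pow, ← map_pow, ← map_mul] at this
    exact this.of_k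

/-- the derivation maps integral elements to integral elements divided by `ρ²` -/
theorem M_deriv [CharZero L] {z : Ω} (hz : z ∈ S.M) : S.ρ ^ 2 * S.δ z ∈ S.M := by
  have : CharZero Ω := charZero_of_injective_algebraMap (algebraMap L Ω).injective
  obtain ⟨a, b, c, ha, hb, hc, rfl⟩ := hz
  obtain ⟨a', ha', ea⟩ := S.hδ a ha
  obtain ⟨b', hb', eb⟩ := S.hδ b hb
  obtain ⟨c', hc', ec⟩ := S.hδ c hc
  obtain ⟨g', hg', eg⟩ := S.hδ S.g S.hg
  have hP : 3 * (S.ρ ^ 2 * S.δ S.ρ) = algebraMap L Ω g' := by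
    rw [← eg, ← S.hρ, Derivation.leibniz_pow]
    simp
  have hP2 : S.ρ ^ 2 * S.δ S.ρ = ((1 / 3 : ℚ) : Ω) * algebraMap L Ω g' := by
    rw [← hP]; push_cast; ring
  have hPM : S.ρ ^ 2 * S.δ S.ρ ∈ S.M := by
    rw [hP2]; exact S.M_mul (S.M_rat _) (S.M_k hg')
  have e : S.ρ ^ 2 * S.δ (algebraMap L Ω a + algebraMap L Ω b * S.ρ +
      algebraMap L Ω c * S.ρ ^ 2) = algebraMap L Ω a' * S.ρ ^ 2 +
      algebraMap L Ω b' * S.ρ ^ 3 + algebraMap L Ω b * (S.ρ ^ 2 * S.δ S.ρ) +
      algebraMap L Ω c' * S.ρ ^ 4 + ((2 : ℚ) : Ω) * algebraMap L Ω c * S.ρ *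
        (S.ρ ^ 2 * S.δ S.ρ) := by
    simp only [map_add, Derivation.leibniz, Derivation.leibniz_pow, ea, eb, ec, smul_eq_mul,
      nsmul_eq_mul]
    push_cast
    ring
  rw [e]
  refine S.M_add (S.M_add (S.M_add (S.M_add ?_ ?_) ?_) ?_) ?_
  · exact S.M_mul (S.M_k ha') (S.M_pow S.M_ρ 2)
  · exact S.M_mul (S.M_k hb') (S.M_pow S.M_ρ 3)
  · exact S.M_mul (S.M_k hb) hPM
  · exact S.M_mul (S.M_k hc') (S.M_pow S.M_ρ 4)
  · exact S.M_mul (S.M_mul (S.M_mul (S.M_rat _) (S.M_k hc)) S.M_ρ) hPM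

theorem exists_coord {z : Ω} (hz : z ∈ IntermediateField.adjoin L {S.ρ}) :
    ∃ z0 z1 z2 : L, z = algebraMap L Ω z0 + algebraMap L Ω z1 * S.ρ +
      algebraMap L Ω z2 * S.ρ ^ 2 := by
  have hmon : (X ^ 3 - C S.g : L[X]).Monic := monic_X_pow_sub_C S.g (by norm_num)
  have hroot : aeval S.ρ (X ^ 3 - C S.g : L[X]) = 0 := by
    simp [S.hρ]
  have hint : IsIntegral L S.ρ := ⟨_, hmon, hroot⟩
  have h1 : z ∈ Algebra.adjoin L {S.ρ} := by
    rw [← IntermediateField.mem_toSubalgebra,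
      IntermediateField.adjoin_simple_toSubalgebra_of_isAlgebraic hint.isAlgebraic] at hz
    exact hz
  rw [Algebra.adjoin_singleton_eq_range_aeval] at h1
  obtain ⟨p, hp⟩ := h1
  have hp' : aeval S.ρ p = z := hp
  have h2 : aeval S.ρ (p %ₘ (X ^ 3 - C S.g : L[X])) = z := by
    rw [← hp']
    exact aeval_modByMonic_eq_self_of_root hroot
  set q := p %ₘ (X ^ 3 - C S.g : L[X]) with hq
  have hdeg : q.natDegree < 3 := by
    have := natDegree_modByMonic_lt p hmon (by
      intro h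
      have h3 := congrArg natDegree h
      rw [natDegree_X_pow_sub_C, natDegree_one] at h3
      norm_num at h3)
    rwa [natDegree_X_pow_sub_C] at this
  refine ⟨q.coeff 0, q.coeff 1, q.coeff 2, ?_⟩
  rw [← h2, aeval_eq_sum_range' hdeg]
  simp only [Finset.sum_range_succ, Finset.sum_range_zero, pow_zero, pow_one, zero_add,
    Algebra.smul_def, mul_one]

theorem D_ff {Ω : Type} [Field Ω] (δ : Derivation ℤ Ω Ω) (a : Ω) :
    δ (ff a) = 2 * (6 * a ^ 5 + 7) * δ a := by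
  have e2 : δ (2 : Ω) = 0 := by
    have := δ.map_natCast 2
    exact_mod_cast this
  have e7 : δ (7 : Ω) = 0 := by
    have := δ.map_natCast 7
    exact_mod_cast this
  have e1 : δ (1 : Ω) = 0 := δ.map_one_eq_zero
  rw [ff]
  simp only [map_add, Derivation.leibniz, Derivation.leibniz_pow, smul_eq_mul, nsmul_eq_mul,
    e2, e7, e1]
  push_cast
  ring

/-- **Local regularity.** -/
theorem main [CharZero L] [Algebra.IsAlgebraic L Ω] {a b : Ω}
    (ha : a ∈ IntermediateField.adjoin L {S.ρ}) (hb : b ∈ IntermediateField.adjoin L {S.ρ})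
    (hb0 : b ≠ 0) (hab : b ^ 3 = ff a) :
    S.ρ ^ 2 * (S.δ a / b ^ 2) ∈ S.M ∧ S.ρ ^ 2 * (a * (S.δ a / b ^ 2)) ∈ S.M ∧
    S.ρ ^ 2 * (a ^ 2 * (S.δ a / b ^ 2)) ∈ S.M ∧ S.ρ ^ 2 * (b * (S.δ a / b ^ 2)) ∈ S.M := by
  have : CharZero Ω := charZero_of_injective_algebraMap (algebraMap L Ω).injective
  obtain ⟨c, hac, hint⟩ := exists_c S.hv a
  have hac' : a - (c : Ω) ≠ 0 := sub_ne_zero.2 hac
  obtain ⟨y, hy⟩ : ∃ y, y = (a - (c : Ω))⁻¹ := ⟨_, rfl⟩
  rw [← hy] at hint
  have hy0 : y ≠ 0 := by rw [hy]; exact inv_ne_zero hac'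
  have hay : a = c + y⁻¹ := by rw [hy, inv_inv]; ring
  obtain ⟨z, hz⟩ : ∃ z, z = b * y ^ 2 := ⟨_, rfl⟩
  have hz0 : z ≠ 0 := by rw [hz]; exact mul_ne_zero hb0 (pow_ne_zero 2 hy0)
  have hzy : z ^ 3 = aeval y (Fc c) := by
    rw [aeval_Fc' c hy0, ← hay, hz, ← hab]
    ring
  have hKy : y ∈ IntermediateField.adjoin L {S.ρ} := by
    rw [hy]
    refine inv_mem (sub_mem ha ?_)
    rw [← map_ratCast (algebraMap L Ω)]
    exact IntermediateField.algebraMap_mem _ _
  have hKz : z ∈ IntermediateField.adjoin L {S.ρ} := by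
    rw [hz]; exact mul_mem hb (pow_mem hKy 2)
  have hintp : ∀ p : ℚ[X], Int S.v (aeval y p) := by
    intro p
    induction p using Polynomial.induction_on with
    | C a =>
      rw [aeval_C, eq_ratCast, ← map_ratCast (algebraMap L Ω)]
      exact int_k (S.hv a)
    | add p q hp hq => rw [map_add]; exact hp.add hq
    | monomial n a h =>
      rw [pow_succ, ← mul_assoc, map_mul, aeval_X]
      exact h.mul hint
  have hintz : Int S.v z := by
    refine Int.of_pow (n := 3) (by norm_num) ?_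
    rw [hzy]
    exact hintp _
  have toM : ∀ x ∈ IntermediateField.adjoin L {S.ρ}, Int S.v x → x ∈ S.M := by
    intro x hx hi
    obtain ⟨z0, z1, z2, rfl⟩ := S.exists_coord hx
    obtain ⟨k0, k1, k2⟩ := S.coord z0 z1 z2 hi
    exact ⟨z0, z1, z2, k0, k1, k2, rfl⟩
  have hyM := toM y hKy hint
  have hzM := toM z hKz hintz
  have hDy := S.M_deriv hyM
  have hDz := S.M_deriv hzM
  -- `δ y / z²` by the Bezout identity
  obtain ⟨G, W, hGW⟩ := Fc_coprime c
  have hbez : aeval y G * aeval y (Fc c) + aeval y W * aeval y (derivative (Fc c)) = 1 := by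
    rw [← map_mul, ← map_mul, ← map_add, hGW, map_one]
  have hDD : 3 * z ^ 2 * S.δ z = aeval y (derivative (Fc c)) * S.δ y := by
    have h1 : S.δ (z ^ 3) = S.δ (aeval y (Fc c)) := by rw [hzy]
    rw [Derivation.leibniz_pow] at h1
    have h2 : S.δ (aeval y (Fc c)) = aeval y (derivative (Fc c)) * S.δ y := by
      have key : ∀ p : ℚ[X], S.δ (aeval y p) = aeval y (derivative p) * S.δ y := by
        intro p
        induction p using Polynomial.induction_on with
        | C a =>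
          rw [aeval_C, derivative_C, map_zero, zero_mul, eq_ratCast]
          have hnum : S.δ ((a.num : ℤ) : Ω) = 0 := by
            exact S.δ.map_intCast a.num
          have hden : S.δ ((a.den : ℕ) : Ω) = 0 := S.δ.map_natCast a.den
          rw [Rat.cast_def, Derivation.leibniz_div, hnum, hden]
          simp
        | add p q hp hq => rw [map_add, map_add, hp, hq, derivative_add, map_add]; ring
        | monomial n a h =>
          have e5 : derivative (C a * X ^ n * X : ℚ[X]) =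
              derivative (C a * X ^ n : ℚ[X]) * X + C a * X ^ n := by
            rw [derivative_mul (f := C a * X ^ n), derivative_X, mul_one]
          rw [pow_succ, ← mul_assoc, e5, map_mul, aeval_X, Derivation.leibniz, h, map_add,
            map_mul _ (derivative (C a * X ^ n)), aeval_X]
          simp only [smul_eq_mul]
          ring
      exact key _
    rw [h2] at h1
    simp only [smul_eq_mul, nsmul_eq_mul] at h1
    push_cast at h1
    linear_combination h1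
  have hω : S.ρ ^ 2 * (S.δ y / z ^ 2) = aeval y G * z * (S.ρ ^ 2 * S.δ y) +
      aeval y (3 * W) * (S.ρ ^ 2 * S.δ z) := by
    rw [map_mul, map_ofNat]
    field_simp
    calc S.ρ ^ 2 * S.δ y = S.ρ ^ 2 * S.δ y * (aeval y G * aeval y (Fc c) +
          aeval y W * aeval y (derivative (Fc c))) := by rw [hbez, mul_one]
      _ = _ := by linear_combination (-(S.ρ ^ 2 * S.δ y) * aeval y G) * hzy -
            S.ρ ^ 2 * aeval y W * hDD
  have hωM : S.ρ ^ 2 * (S.δ y / z ^ 2) ∈ S.M := by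
    rw [hω]
    exact S.M_add (S.M_mul (S.M_mul (S.M_aeval hyM G) hzM) hDy)
      (S.M_mul (S.M_aeval hyM (3 * W)) hDz)
  have hDa : S.δ a = - (S.δ y) / y ^ 2 := by
    have hc : S.δ ((c : ℚ) : Ω) = 0 := by
      have hnum : S.δ ((c.num : ℤ) : Ω) = 0 := S.δ.map_intCast c.num
      have hden : S.δ ((c.den : ℕ) : Ω) = 0 := S.δ.map_natCast c.den
      rw [Rat.cast_def, Derivation.leibniz_div, hnum, hden]
      simp
    rw [hay, map_add, hc, zero_add, Derivation.leibniz_inv]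
    simp only [smul_eq_mul]
    field_simp
  have e1 : S.ρ ^ 2 * (S.δ a / b ^ 2) = aeval y (-X ^ 2 : ℚ[X]) * (S.ρ ^ 2 * (S.δ y / z ^ 2)) := by
    rw [hDa, hz, map_neg, map_pow, aeval_X]
    field_simp
  have e2 : S.ρ ^ 2 * (a * (S.δ a / b ^ 2)) = aeval y (-(C c * X ^ 2 + X) : ℚ[X]) *
      (S.ρ ^ 2 * (S.δ y / z ^ 2)) := by
    have : S.ρ ^ 2 * (a * (S.δ a / b ^ 2)) = a * (S.ρ ^ 2 * (S.δ a / b ^ 2)) := by ring
    rw [this, e1]
    simp only [map_neg, map_add, map_mul, map_pow, aeval_X, aeval_C, eq_ratCast]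
    rw [hay]
    field_simp
  have e3 : S.ρ ^ 2 * (a ^ 2 * (S.δ a / b ^ 2)) = aeval y (-(C c * X + 1) ^ 2 : ℚ[X]) *
      (S.ρ ^ 2 * (S.δ y / z ^ 2)) := by
    have : S.ρ ^ 2 * (a ^ 2 * (S.δ a / b ^ 2)) = a ^ 2 * (S.ρ ^ 2 * (S.δ a / b ^ 2)) := by ring
    rw [this, e1]
    simp only [map_neg, map_add, map_mul, map_pow, aeval_X, aeval_C, eq_ratCast, map_one]
    rw [hay]
    field_simp
  have e4 : S.ρ ^ 2 * (b * (S.δ a / b ^ 2)) = -z * (S.ρ ^ 2 * (S.δ y / z ^ 2)) := by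
    have : S.ρ ^ 2 * (b * (S.δ a / b ^ 2)) = b * (S.ρ ^ 2 * (S.δ a / b ^ 2)) := by ring
    rw [this, e1, map_neg, map_pow, aeval_X, hz]
    field_simp
  refine ⟨?_, ?_, ?_, ?_⟩
  · rw [e1]; exact S.M_mul (S.M_aeval hyM _) hωM
  · rw [e2]; exact S.M_mul (S.M_aeval hyM _) hωM
  · rw [e3]; exact S.M_mul (S.M_aeval hyM _) hωM
  · rw [e4]; exact S.M_mul (S.M_neg hzM) hωM

end LD

end Pool.Agent.Y970.EC
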