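import Pool.Agent.Y970.EC.Forms
import Pool.Agent.Y970.EC.Alg

/-!
# The points of the curve `t³ = 2(x⁶ + 7x + 1)` over its function field
-/

set_option autoImplicit false

namespace Pool.Agent.Y970.EC

open Polynomial IsDedekindDomain WithZero

namespace Ctx

variable {k Ω : Type} [Field k] [Field Ω] [Algebra (RatFunc k) Ω] (S : Ctx k Ω) [CharZero k]

theorem linInd {z0 z1 z2 : RatFunc k}
    (h : algebraMap (RatFunc k) Ω z0 + algebraMap (RatFunc k) Ω z1 * S.r +
      algebraMap (RatFunc k) Ω z2 * S.r ^ 2 = 0) : z0 = 0 ∧ z1 = 0 ∧ z2 = 0 := by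
  have : CharZero (RatFunc k) :=
    charZero_of_injective_algebraMap (algebraMap k (RatFunc k)).injective
  exact (S.fin (Polynomial.idealX k)).linInd S.r_ne h

theorem linIndP {z0 z1 z2 : k[X]} (h : S.P z0 + S.P z1 * S.r + S.P z2 * S.r ^ 2 = 0) :
    z0 = 0 ∧ z1 = 0 ∧ z2 = 0 := by
  have hinj := IsFractionRing.injective k[X] (RatFunc k)
  obtain ⟨h0, h1, h2⟩ := S.linInd h
  exact ⟨hinj (h0.trans (map_zero _).symm), hinj (h1.trans (map_zero _).symm),
    hinj (h2.trans (map_zero _).symm)⟩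

omit [CharZero k] in
/-- the derivation preserves the field of rational functions -/
theorem D_L (z : RatFunc k) : ∃ w : RatFunc k, S.D (algebraMap (RatFunc k) Ω z) =
    algebraMap (RatFunc k) Ω w := by
  have h := S.D_frac z.num z.denom z.denom_ne_zero
  rw [z.num_div_denom] at h
  exact ⟨_, h⟩

/-- **The one variable theorem.** -/
theorem onevar [Algebra.IsAlgebraic (RatFunc k) Ω] {a b : Ω}
    (ha : a ∈ IntermediateField.adjoin (RatFunc k) {S.r})
    (hb : b ∈ IntermediateField.adjoin (RatFunc k) {S.r})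
    (hab : b ^ 3 = ff a) (hDa : S.D a ≠ 0) : a = S.x := by
  have : CharZero (RatFunc k) :=
    charZero_of_injective_algebraMap (algebraMap k (RatFunc k)).injective
  have : CharZero Ω := charZero_of_injective_algebraMap (algebraMap (RatFunc k) Ω).injective
  have hx := S.x_ne
  have hr0 := S.r_ne
  have hb0 : b ≠ 0 := by
    rintro rfl
    have h1 : S.D (ff a) = 0 := by rw [← hab, zero_pow (by norm_num), map_zero]
    rw [LD.D_ff] at h1
    have h2 := (mul_eq_zero.1 h1).resolve_right hDa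
    have h3 := (mul_eq_zero.1 h2).resolve_left two_ne_zero
    have h4 : ff a = 0 := by rw [← hab, zero_pow (by norm_num)]
    rw [ff] at h4
    exact no_common ((mul_eq_zero.1 h4).resolve_left two_ne_zero) h3
  -- the field generated by the other cube root
  have hle : IntermediateField.adjoin (RatFunc k) {S.r} ≤
      IntermediateField.adjoin (RatFunc k) {S.r / S.x ^ 2} := by
    rw [IntermediateField.adjoin_simple_le_iff]
    have h1 : S.r / S.x ^ 2 * algebraMap (RatFunc k) Ω (RatFunc.X ^ 2) = S.r := by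
      rw [map_pow]
      show S.r / S.x ^ 2 * S.x ^ 2 = S.r
      field_simp
    have h2 := mul_mem (IntermediateField.mem_adjoin_simple_self (RatFunc k) (S.r / S.x ^ 2))
      (IntermediateField.algebraMap_mem
        (IntermediateField.adjoin (RatFunc k) {S.r / S.x ^ 2}) (RatFunc.X ^ 2))
    rwa [h1] at h2
  have hfin : ∀ Q : HeightOneSpectrum k[X], S.r ^ 2 * (S.D a / b ^ 2) ∈ (S.fin Q).M ∧
      S.r ^ 2 * (a * (S.D a / b ^ 2)) ∈ (S.fin Q).M ∧
      S.r ^ 2 * (a ^ 2 * (S.D a / b ^ 2)) ∈ (S.fin Q).M ∧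
      S.r ^ 2 * (b * (S.D a / b ^ 2)) ∈ (S.fin Q).M :=
    fun Q => (S.fin Q).main ha hb hb0 hab
  have hinf : (S.r / S.x ^ 2) ^ 2 * ((S.x ^ 2 • S.D) a / b ^ 2) ∈ S.inf.M ∧
      (S.r / S.x ^ 2) ^ 2 * (a * ((S.x ^ 2 • S.D) a / b ^ 2)) ∈ S.inf.M ∧
      (S.r / S.x ^ 2) ^ 2 * (a ^ 2 * ((S.x ^ 2 • S.D) a / b ^ 2)) ∈ S.inf.M ∧
      (S.r / S.x ^ 2) ^ 2 * (b * ((S.x ^ 2 • S.D) a / b ^ 2)) ∈ S.inf.M :=
    S.inf.main (hle ha) (hle hb) hb0 hab
  rw [Derivation.smul_apply, smul_eq_mul] at hinf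
  obtain ⟨U, hU⟩ : ∃ U, U = S.r ^ 2 * (S.D a / b ^ 2) := ⟨_, rfl⟩
  have hU0 : U ≠ 0 := by
    rw [hU]
    exact mul_ne_zero (pow_ne_zero 2 hr0) (div_ne_zero hDa (pow_ne_zero 2 hb0))
  obtain ⟨p0, hd0, c0, e0⟩ := S.hol (w := U) (fun Q => by rw [hU]; exact (hfin Q).1) (by
    rw [hU]; convert hinf.1 using 1; field_simp)
  obtain ⟨p1, hd1, c1, e1⟩ := S.hol (w := a * U) (fun Q => by
    rw [hU]; convert (hfin Q).2.1 using 1; ring) (by
    rw [hU]; convert hinf.2.1 using 1; field_simp)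
  obtain ⟨p2, hd2, c2, e2⟩ := S.hol (w := a ^ 2 * U) (fun Q => by
    rw [hU]; convert (hfin Q).2.2.1 using 1; ring) (by
    rw [hU]; convert hinf.2.2.1 using 1; field_simp)
  obtain ⟨p3, hd3, c3, e3⟩ := S.hol (w := b * U) (fun Q => by
    rw [hU]; convert (hfin Q).2.2.2 using 1; ring) (by
    rw [hU]; convert hinf.2.2.2 using 1; field_simp)
  -- the relations
  obtain ⟨r0, r1, r2⟩ := S.linIndP (z0 := p0 * p2 - p1 ^ 2)
    (z1 := p0 * C c2 + C c0 * p2 - 2 * C c1 * p1) (z2 := C (c0 * c2 - c1 ^ 2)) (by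
      have h1 : (S.P p0 + S.P (C c0) * S.r) * (S.P p2 + S.P (C c2) * S.r) =
          (S.P p1 + S.P (C c1) * S.r) ^ 2 := by
        rw [← e0, ← e1, ← e2]; ring
      simp only [map_add, map_sub, map_mul, map_pow, map_ofNat]
      linear_combination h1)
  have r2' : c0 * c2 - c1 ^ 2 = 0 := C_eq_zero.1 r2
  have hDC : ∀ c : k, S.D (S.P (C c)) = 0 := fun c => by rw [D_P, derivative_C, map_zero]
  have hc0 : c0 = 0 := by
    by_contra hc0
    have h1 : (p0 * C c1 - p1 * C c0) ^ 2 = 0 := by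
      have r3 : (C c0 : k[X]) * C c2 - C c1 ^ 2 = 0 := by
        rw [← map_mul, ← map_pow, ← map_sub, r2', map_zero]
      linear_combination (p0 * C c0) * r1 - p0 ^ 2 * r3 - C c0 ^ 2 * r0
    have h2 : p0 * C c1 - p1 * C c0 = 0 := by
      exact (pow_eq_zero_iff two_ne_zero).1 h1
    have h3 : S.P (C c0) * (a * U) = S.P (C c1) * U := by
      have h4 : S.P p0 * S.P (C c1) - S.P p1 * S.P (C c0) = 0 := by
        rw [← map_mul, ← map_mul, ← map_sub, h2, map_zero]
      rw [e1, e0]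
      linear_combination -h4
    have hc0' : S.P (C c0) ≠ 0 := fun h => hc0 (C_eq_zero.1 (S.P_inj (h.trans (map_zero _).symm)))
    have h5 : a = S.P (C c1) / S.P (C c0) := by
      field_simp
      apply mul_right_cancel₀ hU0
      linear_combination h3
    apply hDa
    rw [h5, Derivation.leibniz_div, hDC, hDC]
    simp
  subst hc0
  have hc1 : c1 = 0 := by
    have : c1 ^ 2 = 0 := by linear_combination -r2'
    exact (pow_eq_zero_iff two_ne_zero).1 this
  subst hc1
  simp only [map_zero, zero_mul, add_zero, mul_zero, sub_zero] at e0 e1 r1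
  have hp0 : p0 ≠ 0 := by
    rintro rfl
    rw [map_zero] at e0
    exact hU0 e0
  have hP0 : S.P p0 ≠ 0 := fun h => hp0 (S.P_inj (h.trans (map_zero _).symm))
  have hap : a = S.P p1 / S.P p0 := by
    rw [eq_div_iff hP0, ← e0, ← e1]
  -- `b` is not in the field of rational functions
  have hc3 : c3 ≠ 0 := by
    rintro rfl
    simp only [map_zero, zero_mul, add_zero] at e3
    have hbp : b = S.P p3 / S.P p0 := by
      rw [eq_div_iff hP0, ← e0, ← e3]
    obtain ⟨w, hw⟩ := S.D_L (algebraMap k[X] (RatFunc k) p1 / algebraMap k[X] (RatFunc k) p0)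
    have hw' : S.D a = algebraMap (RatFunc k) Ω w := by
      rw [← hw, map_div₀ (algebraMap (RatFunc k) Ω), hap]
      rfl
    obtain ⟨y, hy⟩ : ∃ y, y = w / (algebraMap k[X] (RatFunc k) p3 /
      algebraMap k[X] (RatFunc k) p0) ^ 2 := ⟨_, rfl⟩
    have hy2 : algebraMap (RatFunc k) Ω y = S.D a / b ^ 2 := by
      rw [hy, map_div₀ (algebraMap (RatFunc k) Ω), map_pow, map_div₀ (algebraMap (RatFunc k) Ω),
        hw', hbp]
      rfl
    obtain ⟨-, -, h2⟩ := S.linInd (z0 := -algebraMap k[X] (RatFunc k) p0) (z1 := 0) (z2 := y) (by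
      rw [map_zero, zero_mul, add_zero, hy2, map_neg]
      have e4 : algebraMap (RatFunc k) Ω (algebraMap k[X] (RatFunc k) p0) = S.P p0 := rfl
      rw [e4, ← e0, hU]
      ring)
    rw [h2, map_zero] at hy2
    exact (div_ne_zero hDa (pow_ne_zero 2 hb0)) hy2.symm
  -- the fraction `a` in lowest terms
  have r0' : p0 * p2 = p1 ^ 2 := sub_eq_zero.1 r0
  obtain ⟨m, n, h, hp0', hp1', hp2', hcop⟩ : ∃ m n h : k[X], p0 = m ^ 2 * h ∧ p1 = m * n * h ∧
      p2 = n ^ 2 * h ∧ IsCoprime n m := by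
    obtain ⟨z, hz⟩ : ∃ z, z = algebraMap k[X] (RatFunc k) p1 / algebraMap k[X] (RatFunc k) p0 :=
      ⟨_, rfl⟩
    have hcop := RatFunc.isCoprime_num_denom z
    have hm0 := z.denom_ne_zero
    have hz2 := z.num_div_denom
    obtain ⟨n, hn⟩ : ∃ n, n = z.num := ⟨_, rfl⟩
    obtain ⟨m, hm⟩ : ∃ m, m = z.denom := ⟨_, rfl⟩
    rw [← hn, ← hm] at hz2 hcop
    rw [← hm] at hm0
    have hinj := IsFractionRing.injective k[X] (RatFunc k)
    have hm0' : algebraMap k[X] (RatFunc k) m ≠ 0 := fun h =>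
      hm0 (hinj (h.trans (map_zero _).symm))
    have hp00 : algebraMap k[X] (RatFunc k) p0 ≠ 0 := fun h =>
      hp0 (hinj (h.trans (map_zero _).symm))
    have hcross : n * p0 = p1 * m := by
      apply hinj
      rw [map_mul, map_mul]
      rw [hz, div_eq_div_iff hm0' hp00] at hz2
      exact hz2
    obtain ⟨g, hg⟩ : m ∣ p0 := by
      have : m ∣ n * p0 := ⟨p1, by rw [hcross]; ring⟩
      exact hcop.symm.dvd_of_dvd_mul_left this
    have hp1g : p1 = n * g := by
      apply mul_right_cancel₀ hm0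
      rw [← hcross, hg]; ring
    have hg0 : g ≠ 0 := by
      rintro rfl
      exact hp0 (by rw [hg, mul_zero])
    have h3 : m * p2 = n ^ 2 * g := by
      apply mul_right_cancel₀ hg0
      rw [hg, hp1g] at r0'
      linear_combination r0'
    obtain ⟨h, hh⟩ : m ∣ g := by
      have : m ∣ n ^ 2 * g := ⟨p2, h3.symm⟩
      exact (hcop.symm.pow_right (n := 2)).dvd_of_dvd_mul_left this
    refine ⟨m, n, h, ?_, ?_, ?_, hcop⟩
    · rw [hg, hh]; ring
    · rw [hp1g, hh]; ring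
    · apply mul_left_cancel₀ hm0
      rw [h3, hh]; ring
  have hm0 : m ≠ 0 := by
    rintro rfl
    exact hp0 (by rw [hp0']; ring)
  have hh0 : h ≠ 0 := by
    rintro rfl
    exact hp0 (by rw [hp0']; ring)
  have hPm : S.P m ≠ 0 := fun h => hm0 (S.P_inj (h.trans (map_zero _).symm))
  have hPh : S.P h ≠ 0 := fun h' => hh0 (S.P_inj (h'.trans (map_zero _).symm))
  have hanm : a = S.P n / S.P m := by
    rw [hap, hp0', hp1']
    simp only [map_mul, map_pow]
    field_simp
  have hn0 : n ≠ 0 := by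
    rintro rfl
    apply hDa
    rw [hanm]
    simp
  have hdeg0 : (m ^ 2 * h).natDegree = 2 * m.natDegree + h.natDegree := by
    rw [natDegree_mul (pow_ne_zero 2 hm0) hh0, natDegree_pow]
  have hdeg2 : (n ^ 2 * h).natDegree = 2 * n.natDegree + h.natDegree := by
    rw [natDegree_mul (pow_ne_zero 2 hn0) hh0, natDegree_pow]
  rw [← hp0'] at hdeg0
  rw [← hp2'] at hdeg2
  have hdnm : ¬ (m.natDegree = 0 ∧ n.natDegree = 0) := by
    rintro ⟨h1, h2⟩
    apply hDa
    rw [hanm, eq_C_of_natDegree_eq_zero h1, eq_C_of_natDegree_eq_zero h2,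
      Derivation.leibniz_div, hDC, hDC]
    simp
  have hhdeg : h.natDegree = 0 := by omega
  obtain ⟨β, α, hm⟩ := exists_eq_X_add_C_of_natDegree_le_one (show m.natDegree ≤ 1 by omega)
  obtain ⟨δ, γ, hn⟩ := exists_eq_X_add_C_of_natDegree_le_one (show n.natDegree ≤ 1 by omega)
  obtain ⟨H, hH⟩ : ∃ H, h = C H := ⟨_, eq_C_of_natDegree_eq_zero hhdeg⟩
  have hH0 : H ≠ 0 := by
    rintro rfl
    exact hh0 (by rw [hH, map_zero])
  -- the equation of the curve
  have hbU : b = (S.P p3 + S.P (C c3) * S.r) / S.P p0 := by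
    rw [eq_div_iff hP0, ← e0, ← e3]
  have hcurve : (S.P p3 + S.P (C c3) * S.r) ^ 3 =
      S.P (2 * h ^ 3 * (n ^ 6 + 7 * n * m ^ 5 + m ^ 6)) := by
    have h1 : (S.P p3 + S.P (C c3) * S.r) ^ 3 = b ^ 3 * S.P p0 ^ 3 := by
      rw [hbU]; field_simp
    rw [h1, hab, hp0', hanm, ff]
    simp only [map_mul, map_add, map_pow, map_ofNat]
    field_simp
  obtain ⟨s0, s1, s2⟩ := S.linIndP
    (z0 := p3 ^ 3 + C c3 ^ 3 * fp k - 2 * h ^ 3 * (n ^ 6 + 7 * n * m ^ 5 + m ^ 6))
    (z1 := 3 * p3 ^ 2 * C c3) (z2 := 3 * p3 * C c3 ^ 2) (by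
      have h1 := S.r_cube
      rw [map_sub, ← hcurve, map_add, map_mul, ← h1]
      simp only [map_mul, map_pow, map_ofNat]
      ring)
  have hp3 : p3 = 0 := by
    have h1 : (C c3 : k[X]) ^ 2 ≠ 0 := pow_ne_zero 2 (C_ne_zero.2 hc3)
    have h2 := (mul_eq_zero.1 s2).resolve_right h1
    have h3 : (3 : k[X]) ≠ 0 := by norm_num
    exact (mul_eq_zero.1 h2).resolve_left h3
  rw [hp3] at s0
  have heval : ∀ x : k, c3 ^ 3 * (x ^ 6 + 7 * x + 1) =
      H ^ 3 * ((γ + δ * x) ^ 6 + 7 * (γ + δ * x) * (α + β * x) ^ 5 + (α + β * x) ^ 6) := by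
    intro x
    have h1 := congrArg (Polynomial.eval x) s0
    rw [hH, hn, hm, fp] at h1
    simp only [eval_add, eval_sub, eval_mul, eval_pow, eval_C, eval_X, eval_zero, eval_one,
      eval_ofNat] at h1
    have h2 : (2 : k) ≠ 0 := two_ne_zero
    apply mul_left_cancel₀ h2
    linear_combination h1
  have hΔ : α * δ - β * γ ≠ 0 := by
    intro hΔ
    apply hDa
    rw [hanm, Derivation.leibniz_div, D_P, D_P, hm, hn]
    simp only [smul_eq_mul, derivative_add, derivative_mul, derivative_C, derivative_X, zero_mul,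
      mul_one, zero_add, add_zero]
    have h1 : S.P (C α) * S.P (C δ) - S.P (C β) * S.P (C γ) = 0 := by
      have h0 := congrArg (fun t => S.P (C t)) hΔ
      simp only [map_sub, map_mul, map_zero] at h0
      exact h0
    have h2 : S.P (C β * X + C α) * S.P (C δ) - S.P (C δ * X + C γ) * S.P (C β) = 0 := by
      simp only [map_add, map_mul]
      linear_combination h1
    rw [h2, mul_zero]
  obtain ⟨hβ, hγ, hδ⟩ := final_alg (pow_ne_zero 3 hH0) hΔ heval
  have hα : α ≠ 0 := by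
    rintro rfl
    apply hΔ
    rw [hβ]; ring
  rw [hanm, hn, hm, hβ, hγ, hδ]
  have hCα : S.P (C α) ≠ 0 := fun h' => hα (C_eq_zero.1 (S.P_inj (h'.trans (map_zero _).symm)))
  simp only [map_zero, zero_mul, zero_add, add_zero, map_mul]
  rw [P_X]
  field_simp

end Ctx

end Pool.Agent.Y970.EC
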