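import Pool.Agent.TH729.Gr.Val2
import Pool.Agent.Y970.EC.OneVar

/-!
# Several variables: the field generated by `x_i` and the cube roots of `2(x_i⁶ + 7x_i + 1)`
-/

set_option autoImplicit false

namespace Pool.Agent.Y970.EC

open Pool.Agent.TH729.Gr

variable {V : Type}

/-- the variables in the algebraically closed field -/
noncomputable def xx (i : V) : Om V := ι (MvPolynomial.X i)

theorem exists_rr (i : V) : ∃ r : Om V, r ^ 3 = ff (xx i) :=
  IsAlgClosed.exists_pow_nat_eq _ (by norm_num)

/-- the cube roots -/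
noncomputable def rr (i : V) : Om V := (exists_rr i).choose

theorem rr_cube (i : V) : rr i ^ 3 = ff (xx i) := (exists_rr i).choose_spec

theorem D_xx [DecidableEq V] (i j : V) : D i (xx j) = if i = j then 1 else 0 := by
  rw [xx, D_ι, MvPolynomial.pderiv_X, Pi.single_apply]
  by_cases h : i = j
  · subst h; simp
  · have h' : ¬ j = i := fun e => h e.symm
    simp [h, h']

theorem D_xx_self (i : V) : D i (xx i) = 1 := by
  classical
  rw [D_xx, if_pos rfl]

theorem D_xx_ne {i j : V} (h : i ≠ j) : D i (xx j) = 0 := by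
  classical
  rw [D_xx, if_neg h]

theorem D_ff' (i : V) (a : Om V) : D i (ff a) = 2 * (6 * a ^ 5 + 7) * D i a := by
  have := LD.D_ff ((D i).restrictScalars ℤ) a
  exact this

theorem ff_xx_ne (i : V) : ff (xx i) ≠ 0 := by
  intro h
  have h1 := D_ff' i (xx i)
  rw [h, map_zero, D_xx_self, mul_one] at h1
  rw [ff] at h
  exact no_common ((mul_eq_zero.1 h).resolve_left two_ne_zero)
    ((mul_eq_zero.1 h1.symm).resolve_left two_ne_zero)

theorem rr_ne (i : V) : rr i ≠ 0 := by
  intro h
  have := rr_cube i
  rw [h, zero_pow (by norm_num)] at this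
  exact ff_xx_ne i this.symm

theorem D_rr_ne {i j : V} (h : i ≠ j) : D i (rr j) = 0 := by
  have h1 : D i (rr j ^ 3) = D i (ff (xx j)) := by rw [rr_cube]
  rw [D_ff', D_xx_ne h, mul_zero, Derivation.leibniz_pow, smul_eq_mul, nsmul_eq_mul] at h1
  have h2 : ((3 : ℕ) : Om V) ≠ 0 := by norm_num
  have h3 := (mul_eq_zero.1 h1).resolve_left h2
  exact (mul_eq_zero.1 h3).resolve_left (pow_ne_zero _ (rr_ne j))

theorem D_root {η : Om V} (hη : η ^ 3 = 1) (i : V) : D i η = 0 := by
  have h1 : D i (η ^ 3) = 0 := by rw [hη, Derivation.map_one_eq_zero]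
  rw [Derivation.leibniz_pow, smul_eq_mul, nsmul_eq_mul] at h1
  have h0 : η ≠ 0 := by
    rintro rfl
    rw [zero_pow (by norm_num)] at hη
    exact zero_ne_one hη
  have h2 : ((3 : ℕ) : Om V) ≠ 0 := by norm_num
  have h3 := (mul_eq_zero.1 h1).resolve_left h2
  exact (mul_eq_zero.1 h3).resolve_left (pow_ne_zero _ h0)

/-- the field of constants of a derivation -/
noncomputable def kk (i : V) : Subfield (Om V) where
  carrier := {z | D i z = 0}
  mul_mem' {a b} ha hb := by
    rw [Set.mem_ofPred_eq] at ha hb ⊢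
    rw [Derivation.leibniz, ha, hb, smul_zero, smul_zero, add_zero]
  one_mem' := Derivation.map_one_eq_zero _
  add_mem' {a b} ha hb := by
    rw [Set.mem_ofPred_eq] at ha hb ⊢
    rw [map_add, ha, hb, add_zero]
  zero_mem' := map_zero _
  neg_mem' {a} ha := by
    rw [Set.mem_ofPred_eq] at ha ⊢
    rw [map_neg, ha, neg_zero]
  inv_mem' a ha := by
    rw [Set.mem_ofPred_eq] at ha ⊢
    rw [Derivation.leibniz_inv, ha, smul_zero]

theorem mem_kk {i : V} {z : Om V} : z ∈ kk i ↔ D i z = 0 := Iff.rfl

instance (i : V) : CharZero (kk i) :=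
  charZero_of_injective_algebraMap (R := ℤ) (by
    intro a b h
    have h1 := congrArg (Subtype.val) h
    have : (a : Om V) = (b : Om V) := by simpa using h1
    exact_mod_cast this)

/-- polynomials over the constants -/
noncomputable def ev (i : V) : Polynomial (kk i) →+* Om V :=
  Polynomial.eval₂RingHom (kk i).subtype (xx i)

theorem ev_X (i : V) : ev i Polynomial.X = xx i := by simp [ev]

theorem ev_C (i : V) (c : kk i) : ev i (Polynomial.C c) = c := by simp [ev]

theorem D_ev (i : V) (p : Polynomial (kk i)) : D i (ev i p) = ev i (Polynomial.derivative p) := by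
  induction p using Polynomial.induction_on with
  | C a => rw [ev_C, Polynomial.derivative_C, map_zero]; exact a.2
  | add p q hp hq => rw [map_add, map_add, hp, hq, Polynomial.derivative_add, map_add]
  | monomial n a h =>
    have e5 : Polynomial.derivative (Polynomial.C a * Polynomial.X ^ n * Polynomial.X :
        Polynomial (kk i)) = Polynomial.derivative (Polynomial.C a * Polynomial.X ^ n :
        Polynomial (kk i)) * Polynomial.X + Polynomial.C a * Polynomial.X ^ n := by
      rw [Polynomial.derivative_mul (f := Polynomial.C a * Polynomial.X ^ n),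
        Polynomial.derivative_X, mul_one]
    rw [pow_succ, ← mul_assoc, e5, map_mul, Derivation.leibniz, h, ev_X, D_xx_self, map_add,
      map_mul _ (Polynomial.derivative (Polynomial.C a * Polynomial.X ^ n)), ev_X]
    simp only [smul_eq_mul]
    ring

theorem ev_inj (i : V) : Function.Injective (ev i) := by
  rw [injective_iff_map_eq_zero]
  intro p
  induction hn : p.natDegree using Nat.strong_induction_on generalizing p with
  | _ n ih =>
    intro hp
    by_cases h0 : p.natDegree = 0
    · rw [Polynomial.eq_C_of_natDegree_eq_zero h0] at hp ⊢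
      rw [ev_C] at hp
      have : p.coeff 0 = 0 := Subtype.ext hp
      rw [this, map_zero]
    · have h1 : ev i (Polynomial.derivative p) = 0 := by rw [← D_ev, hp, map_zero]
      have h2 := ih _ (by rw [← hn]; exact Polynomial.natDegree_derivative_lt h0) _ rfl h1
      have h3 := Polynomial.derivative_eq_zero.1 h2
      exact absurd h3 h0

/-- rational functions over the constants -/
noncomputable def φ (i : V) : RatFunc (kk i) →+* Om V :=
  IsFractionRing.lift (A := Polynomial (kk i)) (K := RatFunc (kk i)) (g := ev i) (ev_inj i)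

theorem φ_poly (i : V) (p : Polynomial (kk i)) :
    φ i (algebraMap (Polynomial (kk i)) (RatFunc (kk i)) p) = ev i p :=
  IsFractionRing.lift_algebraMap _ _

/-- the structure of algebra -/
@[reducible] noncomputable def alg (i : V) : Algebra (RatFunc (kk i)) (Om V) := (φ i).toAlgebra

/-- the rational functions over `ℚ` as rational functions over the constants -/
noncomputable def jA (i : V) : A V →+* RatFunc (kk i) := by
  classical
  exact MvPolynomial.eval₂Hom (algebraMap ℚ (RatFunc (kk i))) fun j =>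
    if h : i = j then RatFunc.X else RatFunc.C ⟨xx j, D_xx_ne h⟩

theorem φ_jA (i : V) (p : A V) : φ i (jA i p) = ι p := by
  classical
  have h : (φ i).comp (jA i) = ι := by
    refine MvPolynomial.ringHom_ext' (Subsingleton.elim _ _) fun j => ?_
    rw [RingHom.comp_apply, jA, MvPolynomial.eval₂Hom_X']
    split_ifs with hij
    · subst hij
      rw [← RatFunc.algebraMap_X, φ_poly, ev_X]; rfl
    · rw [← RatFunc.algebraMap_C, φ_poly, ev_C]; rfl
  exact DFunLike.congr_fun h p

theorem jA_inj (i : V) : Function.Injective (jA i) := by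
  intro p q h
  have h1 := congrArg (φ i) h
  rw [φ_jA, φ_jA] at h1
  have h2 : Function.Injective (ι (V := V)) :=
    (algebraMap (F V) (Om V)).injective.comp (IsFractionRing.injective (A V) (F V))
  exact h2 h1

/-- the same for fractions -/
noncomputable def jF (i : V) : F V →+* RatFunc (kk i) :=
  IsFractionRing.lift (A := A V) (K := F V) (g := jA i) (jA_inj i)

theorem φ_jF (i : V) (z : F V) : φ i (jF i z) = k z := by
  obtain ⟨s, t, ht, -, rfl⟩ := exists_frac z
  rw [map_div₀, map_div₀, map_div₀, k_j, k_j, jF, IsFractionRing.lift_algebraMap,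
    IsFractionRing.lift_algebraMap, φ_jA, φ_jA]

theorem isAlg (i : V) : let := alg i; Algebra.IsAlgebraic (RatFunc (kk i)) (Om V) := by
  let := alg i
  refine ⟨fun z => ?_⟩
  obtain ⟨p, hp0, hp⟩ := (Algebra.IsAlgebraic.isAlgebraic (R := F V) z)
  refine ⟨p.map (jF i), ?_, ?_⟩
  · rwa [Ne, Polynomial.map_eq_zero_iff (jF i).injective]
  · rw [Polynomial.aeval_def, Polynomial.eval₂_map]
    have : (algebraMap (RatFunc (kk i)) (Om V)).comp (jF i) = algebraMap (F V) (Om V) :=
      RingHom.ext fun z => φ_jF i z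
    rw [this]
    exact hp

/-- a primitive cube root of unity -/
theorem exists_w : ∃ w : Om V, 1 + w + w ^ 2 = 0 := by
  obtain ⟨w, hw⟩ := IsAlgClosed.exists_root (Polynomial.X ^ 2 + Polynomial.X + 1 :
    Polynomial (Om V)) (by
      have : (Polynomial.X ^ 2 + Polynomial.X + 1 : Polynomial (Om V)).degree = 2 := by
        compute_degree!
      rw [this]; norm_num)
  refine ⟨w, ?_⟩
  rw [Polynomial.IsRoot] at hw
  simp only [Polynomial.eval_add, Polynomial.eval_pow, Polynomial.eval_X,
    Polynomial.eval_one] at hw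
  linear_combination hw

theorem w_cube {w : Om V} (hw : 1 + w + w ^ 2 = 0) : w ^ 3 = 1 := by
  linear_combination (w - 1) * hw

/-- the automorphism that multiplies one cube root by a primitive cube root of unity -/
theorem exists_σ (i : V) : ∃ (w : kk i), 1 + w + w ^ 2 = 0 ∧
    (let := alg i; ∃ σ : Om V ≃ₐ[RatFunc (kk i)] Om V, σ (rr i) = (w : Om V) * rr i) := by
  let := alg i
  have := isAlg i
  have hac : IsAlgClosure (RatFunc (kk i)) (Om V) := ⟨inferInstance, inferInstance⟩
  have : CharZero (RatFunc (kk i)) :=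
    charZero_of_injective_algebraMap (algebraMap (kk i) (RatFunc (kk i))).injective
  have : IsGalois (RatFunc (kk i)) (Om V) := inferInstance
  have hnot : rr i ∉ (⊥ : IntermediateField (RatFunc (kk i)) (Om V)) := by
    intro h
    rw [IntermediateField.mem_bot] at h
    obtain ⟨z, hz⟩ := h
    apply not_cube z
    apply (algebraMap (RatFunc (kk i)) (Om V)).injective
    rw [map_pow, hz, rr_cube]
    show _ = φ i _
    rw [φ_poly, map_fp, ev_X]
  rw [InfiniteGalois.mem_bot_iff_fixed] at hnot
  push Not at hnot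
  obtain ⟨σ, hσ⟩ := hnot
  obtain ⟨w, hw⟩ : ∃ w, w = σ (rr i) / rr i := ⟨_, rfl⟩
  have hr := rr_ne i
  have hw1 : σ (rr i) = w * rr i := by rw [hw]; field_simp
  have hcube : w ^ 3 = 1 := by
    have h1 : σ (rr i) ^ 3 = rr i ^ 3 := by
      rw [← map_pow, rr_cube]
      have h2 : ff (xx i) = algebraMap (RatFunc (kk i)) (Om V)
          (algebraMap (Polynomial (kk i)) (RatFunc (kk i)) (fp (kk i))) := by
        show _ = φ i _
        rw [φ_poly, map_fp, ev_X]
      rw [h2]
      exact σ.commutes _
    rw [hw, div_pow, h1, div_self (pow_ne_zero 3 hr)]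
  have hw2 : w ≠ 1 := by
    rintro rfl
    rw [one_mul] at hw1
    exact hσ hw1
  have hw3 : 1 + w + w ^ 2 = 0 := by
    have : (w - 1) * (1 + w + w ^ 2) = 0 := by linear_combination hcube
    exact (mul_eq_zero.1 this).resolve_left (sub_ne_zero.2 hw2)
  exact ⟨⟨w, D_root hcube i⟩, Subtype.ext hw3, σ, hw1⟩

/-- the context for the one variable theorem -/
theorem exists_ctx (i : V) : let := alg i; ∃ S : Ctx (kk i) (Om V),
    (∀ z, S.D z = D i z) ∧ S.r = rr i ∧ S.x = xx i := by
  let := alg i
  obtain ⟨w, hw, σ, hσ⟩ := exists_σ i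
  refine ⟨{ D := (D i).restrictScalars ℤ
            hDC := fun c => ?_
            hDX := ?_
            r := rr i
            hr := ?_
            σ := σ
            ω := w
            hω := hw
            hσ := ?_ }, fun z => rfl, rfl, ?_⟩
  · show D i (φ i (RatFunc.C c)) = 0
    rw [← RatFunc.algebraMap_C, φ_poly, ev_C]
    exact c.2
  · show D i (φ i RatFunc.X) = 1
    rw [← RatFunc.algebraMap_X, φ_poly, ev_X, D_xx_self]
  · rw [rr_cube]
    show _ = ff (φ i RatFunc.X)
    rw [← RatFunc.algebraMap_X, φ_poly, ev_X]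
  · rw [hσ]
    show _ = φ i (RatFunc.C w) * rr i
    rw [← RatFunc.algebraMap_C, φ_poly, ev_C]
  · show φ i RatFunc.X = xx i
    rw [← RatFunc.algebraMap_X, φ_poly, ev_X]

/-- **Points, one variable at a time.** -/
theorem point {i : V} {a b : Om V}
    (ha : let := alg i; a ∈ IntermediateField.adjoin (RatFunc (kk i)) {rr i})
    (hb : let := alg i; b ∈ IntermediateField.adjoin (RatFunc (kk i)) {rr i})
    (hab : b ^ 3 = ff a) (hDa : D i a ≠ 0) : a = xx i := by
  let := alg i
  have := isAlg i
  obtain ⟨S, hD, hr, hx⟩ := exists_ctx i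
  rw [← hx]
  rw [← hr] at ha hb
  refine S.onevar ha hb hab ?_
  rw [hD]
  exact hDa

/-- multiplication of one cube root by a root of unity -/
theorem exists_T (i : V) {η : Om V} (hη : η ^ 3 = 1) :
    ∃ T : Om V ≃+* Om V, (∀ z, D i z = 0 → T z = z) ∧ T (xx i) = xx i ∧
      T (rr i) = η * rr i := by
  let := alg i
  obtain ⟨w, hw, σ, hσ⟩ := exists_σ i
  have hw' : 1 + (w : Om V) + (w : Om V) ^ 2 = 0 := congrArg Subtype.val hw
  have hc : ∀ z, D i z = 0 → σ z = z := fun z hz => by
    have h1 : z = algebraMap (RatFunc (kk i)) (Om V) (RatFunc.C ⟨z, hz⟩) := by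
      show _ = φ i _
      rw [← RatFunc.algebraMap_C, φ_poly, ev_C]
    rw [h1]
    exact σ.commutes _
  have hx : σ (xx i) = xx i := by
    have h1 : xx i = algebraMap (RatFunc (kk i)) (Om V) RatFunc.X := by
      show _ = φ i _
      rw [← RatFunc.algebraMap_X, φ_poly, ev_X]
    rw [h1]
    exact σ.commutes _
  have h3 : (η - 1) * ((η - w) * (η - w ^ 2)) = 0 := by
    linear_combination hη + (-η ^ 2 + w * η - (w - 1)) * hw'
  rcases mul_eq_zero.1 h3 with h | h
  · refine ⟨RingEquiv.refl _, fun z _ => rfl, rfl, ?_⟩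
    rw [sub_eq_zero.1 h, one_mul]; rfl
  rcases mul_eq_zero.1 h with h | h
  · refine ⟨σ.toRingEquiv, hc, hx, ?_⟩
    rw [sub_eq_zero.1 h]; exact hσ
  · refine ⟨(σ.trans σ).toRingEquiv, fun z hz => ?_, ?_, ?_⟩
    · show σ (σ z) = z
      rw [hc z hz, hc z hz]
    · show σ (σ (xx i)) = xx i
      rw [hx, hx]
    · show σ (σ (rr i)) = η * rr i
      rw [hσ, map_mul, hc _ w.2, hσ, sub_eq_zero.1 h]
      ring

/-- multiplication of finitely many cube roots by roots of unity -/
theorem exists_TI [DecidableEq V] (I : Finset V) {η : V → Om V} (hη : ∀ i, η i ^ 3 = 1) :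
    ∃ T : Om V ≃+* Om V, (∀ z, (∀ i, D i z = 0) → T z = z) ∧ (∀ i, T (xx i) = xx i) ∧
      (∀ i ∈ I, T (rr i) = η i * rr i) ∧ (∀ i ∉ I, T (rr i) = rr i) := by
  induction I using Finset.induction_on with
  | empty => exact ⟨RingEquiv.refl _, fun z _ => rfl, fun _ => rfl, fun i hi => by simp at hi,
      fun i _ => rfl⟩
  | insert a I ha ih =>
    obtain ⟨T, h1, h2, h3, h4⟩ := ih
    obtain ⟨T', g1, g2, g3⟩ := exists_T a (hη a)
    have gx : ∀ i, T' (xx i) = xx i := by
      intro i
      by_cases h : a = i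
      · rw [← h]; exact g2
      · exact g1 _ (D_xx_ne h)
    have gr : ∀ i, a ≠ i → T' (rr i) = rr i := fun i h => g1 _ (D_rr_ne h)
    refine ⟨T.trans T', fun z hz => ?_, fun i => ?_, fun i hi => ?_, fun i hi => ?_⟩
    · rw [RingEquiv.trans_apply, h1 z hz, g1 z (hz a)]
    · rw [RingEquiv.trans_apply, h2, gx]
    · rw [RingEquiv.trans_apply]
      rcases Finset.mem_insert.1 hi with h | h
      · subst h
        rw [h4 i ha, g3]
      · have hne : a ≠ i := by rintro rfl; exact ha h
        rw [h3 i h, map_mul, gr i hne, g1 _ (D_root (hη i) a)]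
    · rw [Finset.mem_insert, not_or] at hi
      rw [RingEquiv.trans_apply, h4 i hi.2, gr i (fun h => hi.1 h.symm)]

/-! ### Polynomials in the generators -/

/-- the generators of the field -/
noncomputable def gen : V ⊕ V → Om V := Sum.elim xx rr

/-- polynomials in the generators -/
noncomputable def ψ : MvPolynomial (V ⊕ V) ℚ →ₐ[ℚ] Om V := MvPolynomial.aeval gen

/-- the field generated by the generators is contained in every one variable extension -/
theorem ψ_mem (i : V) (G : MvPolynomial (V ⊕ V) ℚ) :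
    let := alg i; ψ G ∈ IntermediateField.adjoin (RatFunc (kk i)) {(rr i : Om V)} := by
  let := alg i
  induction G using MvPolynomial.induction_on with
  | C a =>
    rw [← MvPolynomial.algebraMap_eq, AlgHom.commutes, eq_ratCast,
      ← map_ratCast (algebraMap (RatFunc (kk i)) (Om V))]
    exact IntermediateField.algebraMap_mem _ _
  | add p q hp hq => rw [map_add]; exact add_mem hp hq
  | mul_X p s hp =>
    rw [map_mul]
    refine mul_mem hp ?_
    have hconst : ∀ z : Om V, D i z = 0 →
        z ∈ IntermediateField.adjoin (RatFunc (kk i)) {(rr i : Om V)} := by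
      intro z hz
      have h1 : z = algebraMap (RatFunc (kk i)) (Om V) (RatFunc.C ⟨z, hz⟩) := by
        show _ = φ i _
        rw [← RatFunc.algebraMap_C, φ_poly, ev_C]
      rw [h1]
      exact IntermediateField.algebraMap_mem _ _
    rw [ψ, MvPolynomial.aeval_X]
    rcases s with j | j
    · show xx j ∈ _
      by_cases h : i = j
      · subst h
        have h1 : xx i = algebraMap (RatFunc (kk i)) (Om V) RatFunc.X := by
          show _ = φ i _
          rw [← RatFunc.algebraMap_X, φ_poly, ev_X]
        rw [h1]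
        exact IntermediateField.algebraMap_mem _ _
      · exact hconst _ (D_xx_ne h)
    · show rr j ∈ _
      by_cases h : i = j
      · subst h
        exact IntermediateField.mem_adjoin_simple_self _ _
      · exact hconst _ (D_rr_ne h)

/-- A ring endomorphism that acts on the generators as wanted up to roots of unity can be
corrected on finitely many generators. -/
theorem correct [DecidableEq V] (π : Equiv.Perm V) (s : Om V →+* Om V)
    (hs : ∀ i, s (xx i) = xx (π i)) (I : Finset (V ⊕ V)) :
    ∃ T : Om V ≃+* Om V, (∀ z, (∀ i, D i z = 0) → T z = z) ∧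
      ∀ G : MvPolynomial (V ⊕ V) ℚ, G.vars ⊆ I →
        T (s (ψ G)) = ψ (MvPolynomial.rename (Sum.map π π) G) := by
  have hs3 : ∀ i, s (rr i) ^ 3 = rr (π i) ^ 3 := by
    intro i
    rw [← map_pow, rr_cube, rr_cube]
    simp [ff, hs, map_ofNat]
  let θ : V → Om V := fun j => rr j / s (rr (π.symm j))
  have hsr : ∀ i, s (rr i) ≠ 0 := fun i => (_root_.map_ne_zero s).2 (rr_ne i)
  have hθ : ∀ j, θ j ^ 3 = 1 := by
    intro j
    show (rr j / s (rr (π.symm j))) ^ 3 = 1
    rw [div_pow, hs3, Equiv.apply_symm_apply, div_self (pow_ne_zero 3 (rr_ne j))]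
  obtain ⟨T, h1, h2, h3, -⟩ := exists_TI (I.image (Sum.elim π π)) hθ
  refine ⟨T, h1, fun G hG => ?_⟩
  have key : ∀ v ∈ I, T (s (gen v)) = gen (Sum.map π π v) := by
    intro v hv
    rcases v with j | j
    · show T (s (xx j)) = xx (π j)
      rw [hs, h2]
    · show T (s (rr j)) = rr (π j)
      have hmem : π j ∈ I.image (Sum.elim π π) :=
        Finset.mem_image.2 ⟨Sum.inr j, hv, rfl⟩
      have e1 : s (rr j) = rr (π j) / θ (π j) := by
        show s (rr j) = rr (π j) / (rr (π j) / s (rr (π.symm (π j))))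
        rw [Equiv.symm_apply_apply]
        have := rr_ne (π j)
        have := hsr j
        field_simp
      have hθ0 : θ (π j) ≠ 0 := by
        intro h
        have := hθ (π j)
        rw [h, zero_pow (by norm_num)] at this
        exact zero_ne_one this
      rw [e1, map_div₀, h3 _ hmem, h1 _ (fun i => D_root (hθ _) i)]
      field_simp
  let ρ : MvPolynomial (V ⊕ V) ℚ →ₐ[ℚ] MvPolynomial (V ⊕ V) ℚ :=
    MvPolynomial.rename (Sum.map π π)
  have e := MvPolynomial.hom_congr_vars
    (f₁ := ((T : Om V →+* Om V).comp s).comp (ψ (V := V)).toRingHom)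
    (f₂ := (ψ (V := V)).toRingHom.comp ρ.toRingHom) (p₁ := G) (p₂ := G)
    (Subsingleton.elim _ _) (fun v hv _ => by
      show T (s (ψ (MvPolynomial.X v))) = ψ (MvPolynomial.rename (Sum.map π π) (MvPolynomial.X v))
      rw [MvPolynomial.rename_X, ψ, MvPolynomial.aeval_X, MvPolynomial.aeval_X]
      exact key v (hG hv)) rfl
  exact e

instance : IsAlgClosure (F V) (Om V) := ⟨inferInstance, inferInstance⟩

/-- A permutation of the variables extends to the algebraically closed field. -/
theorem exists_perm (π : Equiv.Perm V) : ∃ s : Om V →+* Om V, ∀ i, s (xx i) = xx (π i) := by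
  let e : F V ≃+* F V := IsFractionRing.ringEquivOfRingEquiv (K := F V) (L := F V)
    (MvPolynomial.renameEquiv ℚ π).toRingEquiv
  refine ⟨(IsAlgClosure.equivOfEquiv (Om V) (Om V) e : Om V →+* Om V), fun i => ?_⟩
  show IsAlgClosure.equivOfEquiv (Om V) (Om V) e (xx i) = xx (π i)
  have h1 : xx i = algebraMap (F V) (Om V) (j (MvPolynomial.X i)) := (k_j _).symm
  rw [h1, IsAlgClosure.equivOfEquiv_algebraMap]
  have h2 : e (j (MvPolynomial.X i)) = j (MvPolynomial.X (π i)) := by
    show IsFractionRing.ringEquivOfRingEquiv (K := F V) (L := F V) _ _ = _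
    rw [IsFractionRing.ringEquivOfRingEquiv_algebraMap]
    congr 1
    show MvPolynomial.rename π (MvPolynomial.X i) = _
    rw [MvPolynomial.rename_X]
  rw [h2]
  exact k_j _

/-- relations between the generators are invariant under permutations -/
theorem ψ_perm (π : Equiv.Perm V) {G : MvPolynomial (V ⊕ V) ℚ} (h : ψ G = 0) :
    ψ (MvPolynomial.rename (Sum.map π π) G) = 0 := by
  classical
  obtain ⟨s, hs⟩ := exists_perm π
  obtain ⟨T, -, hT⟩ := correct π s hs G.vars
  rw [← hT G (Finset.Subset.refl _), h, map_zero, map_zero]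

/-- derivations commute with the automorphisms over the rational functions -/
theorem D_gal (i : V) (γ : Om V ≃ₐ[F V] Om V) (z : Om V) : D i (γ z) = γ (D i z) := by
  let E : Derivation ℚ (Om V) (Om V) :=
    { toFun := fun z => γ.symm (D i (γ z)) - D i z
      map_add' := fun a b => by simp only [map_add]; ring
      map_smul' := fun q a => by
        show γ.symm (D i (γ (q • a))) - D i (q • a) = q • (γ.symm (D i (γ a)) - D i a)
        have h1 : γ (q • a) = q • γ a := by
          rw [Rat.smul_def, map_mul, map_ratCast, Rat.smul_def]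
        have h2 : ∀ b, γ.symm (q • b) = q • γ.symm b := fun b => by
          rw [Rat.smul_def, map_mul, map_ratCast, Rat.smul_def]
        rw [h1, Derivation.map_smul, h2, Derivation.map_smul, smul_sub]
      map_one_eq_zero' := by
        show γ.symm (D i (γ 1)) - D i 1 = 0
        rw [map_one, Derivation.map_one_eq_zero, map_zero, sub_zero]
      leibniz' := fun a b => by
        show γ.symm (D i (γ (a * b))) - D i (a * b) =
          a • (γ.symm (D i (γ b)) - D i b) + b • (γ.symm (D i (γ a)) - D i a)
        simp only [map_mul, Derivation.leibniz, smul_eq_mul, map_add, AlgEquiv.symm_apply_apply]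
        ring }
  have h := der_unique (R := ℚ) (S := A V) E (fun p => by
    show γ.symm (D i (γ (ι p))) - D i (ι p) = 0
    have h1 : ∀ p : A V, γ (ι p) = ι p := fun p => by
      rw [← k_j]; exact γ.commutes _
    have h2 : ∀ p : A V, γ.symm (ι p) = ι p := fun p => by
      rw [← k_j]; exact γ.symm.commutes _
    rw [h1, D_ι, h2, sub_self]) z
  have h' : γ.symm (D i (γ z)) - D i z = 0 := h
  rw [sub_eq_zero] at h'
  rw [← h', AlgEquiv.apply_symm_apply]

/-- **Constants are rational.** -/
theorem const_rat {G H : MvPolynomial (V ⊕ V) ℚ} {a : Om V} (ha : a = ψ G / ψ H)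
    (h : ∀ i, D i a = 0) : ∃ q : ℚ, a = q := by
  classical
  have hfix : ∀ γ : Om V ≃ₐ[F V] Om V, γ a = a := by
    intro γ
    obtain ⟨T, h1, hT⟩ := correct (Equiv.refl V) (γ : Om V →+* Om V) (fun i => by
      show γ (xx i) = xx i
      rw [xx, ← k_j]
      exact γ.commutes _) (G.vars ∪ H.vars)
    have e : ∀ p : MvPolynomial (V ⊕ V) ℚ, MvPolynomial.rename (Sum.map (Equiv.refl V)
        (Equiv.refl V)) p = p := by
      intro p
      have : (Sum.map (Equiv.refl V) (Equiv.refl V) : V ⊕ V → V ⊕ V) = id := by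
        funext v; rcases v with v | v <;> rfl
      rw [this, MvPolynomial.rename_id, AlgHom.id_apply]
    have hG := hT G Finset.subset_union_left
    have hH := hT H Finset.subset_union_right
    rw [e] at hG hH
    have h2 : T (γ a) = γ a := h1 _ (fun i => by rw [D_gal, h, map_zero])
    have h3 : T (γ a) = a := by
      have hG' : T (γ (ψ G)) = ψ G := hG
      have hH' : T (γ (ψ H)) = ψ H := hH
      rw [ha, map_div₀, map_div₀, hG', hH']
    rw [← h2, h3]
  have hgal : IsGalois (F V) (Om V) := inferInstance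
  have hbot := (InfiniteGalois.mem_bot_iff_fixed a).2 hfix
  rw [IntermediateField.mem_bot] at hbot
  obtain ⟨z, hz⟩ := hbot
  obtain ⟨q, hq⟩ := exists_rat z (fun w => by
    have h1 := D_k w z
    have h2 : k z = a := hz
    rw [h2, h] at h1
    exact ((_root_.map_eq_zero _).1 h1.symm))
  refine ⟨q, ?_⟩
  rw [← hz, hq, eq_ratCast, map_ratCast]

/-- no rational points -/
theorem no_rat_point {x y : ℚ} (h : y ^ 3 = ff x) : False := by
  have hd : (x.den : ℚ) ≠ 0 := by exact_mod_cast x.den_ne_zero
  have hx : x = x.num / x.den := (Rat.num_div_den x).symm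
  set n := x.num with hn
  set d := x.den with hd'
  -- the integer `y d²`
  have h1 : (y * (d : ℚ) ^ 2) ^ 3 = ((2 * (n ^ 6 + 7 * n * d ^ 5 + d ^ 6) : ℤ) : ℚ) := by
    rw [mul_pow, h, hx, ff]
    push_cast
    field_simp
  have h2 : IsIntegral ℤ (y * (d : ℚ) ^ 2) := by
    refine IsIntegral.of_pow (n := 3) (by norm_num) ?_
    rw [h1]
    exact isIntegral_algebraMap (R := ℤ) (A := ℚ)
  obtain ⟨m, hm⟩ := IsIntegrallyClosed.isIntegral_iff.1 h2
  rw [← hm] at h1
  have h3 : m ^ 3 = 2 * (n ^ 6 + 7 * n * d ^ 5 + d ^ 6) := by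
    have : ((m ^ 3 : ℤ) : ℚ) = ((2 * (n ^ 6 + 7 * n * d ^ 5 + d ^ 6) : ℤ) : ℚ) := by
      rw [← h1]; simp
    exact_mod_cast this
  have h4 : (m : ZMod 7) ^ 3 = 2 * ((n : ZMod 7) ^ 6 + 7 * (n : ZMod 7) * (d : ZMod 7) ^ 5 +
      (d : ZMod 7) ^ 6) := by
    have := congrArg (Int.cast : ℤ → ZMod 7) h3
    push_cast at this
    exact this
  have h5 : ∀ a b c : ZMod 7, a ^ 3 = 2 * (b ^ 6 + 7 * b * c ^ 5 + c ^ 6) → b = 0 ∧ c = 0 := by
    decide
  obtain ⟨h6, h7⟩ := h5 _ _ _ h4
  have h8 : (7 : ℤ) ∣ n := (ZMod.intCast_zmod_eq_zero_iff_dvd n 7).1 h6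
  have h9 : 7 ∣ d := (ZMod.natCast_eq_zero_iff d 7).1 h7
  have h10 : Nat.Coprime n.natAbs d := x.reduced
  have h11 : 7 ∣ n.natAbs := Int.natCast_dvd.1 h8
  have h12 := Nat.dvd_gcd h11 h9
  rw [h10] at h12
  norm_num at h12

end Pool.Agent.Y970.EC
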