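import Pool.Agent.Y970.EC.Loc

/-!
# The valuations of a field of rational functions and the polynomial `2(X⁶ + 7X + 1)`
-/

set_option autoImplicit false

namespace Pool.Agent.Y970.EC

open Polynomial IsDedekindDomain WithZero

section vals

theorem exp_one_le {x : ℤᵐ⁰} (h : 1 < x) : exp 1 ≤ x := by
  by_contra hcon
  push Not at hcon
  have h1 : x < 1 * exp 1 := by rwa [one_mul]
  rw [lt_mul_exp_iff_le one_ne_zero] at h1
  exact absurd h (not_lt.2 h1)

theorem exp_neg_one_le {x : ℤᵐ⁰} (h : exp (-2) < x) : exp (-1) ≤ x := by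
  by_contra hcon
  push Not at hcon
  have h1 : x < exp (-2) * exp 1 := by rwa [← exp_add, show (-2 : ℤ) + 1 = -1 by norm_num]
  rw [lt_mul_exp_iff_le exp_ne_zero] at h1
  exact absurd h (not_lt.2 h1)

variable (k : Type) [Field k]

/-- the polynomial `2(X⁶ + 7X + 1)` -/
noncomputable def fp : k[X] := 2 * (X ^ 6 + 7 * X + 1)

variable {k}

theorem map_fp {R : Type} [CommRing R] (φ : k[X] →+* R) : φ (fp k) = ff (φ X) := by
  simp [fp, ff, map_ofNat]

theorem derivative_fp : derivative (fp k) = 2 * (6 * X ^ 5 + 7) := by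
  have h6 : (C ((6 : ℕ) : k) : k[X]) = 6 := map_natCast C 6
  simp only [fp, derivative_mul, derivative_add, derivative_X_pow, derivative_X, derivative_one,
    derivative_ofNat, h6]
  ring

variable [CharZero k]

theorem natDegree_fp : (fp k).natDegree = 6 := by
  have : fp k = C 2 * X ^ 6 + C 14 * X + C 2 := by
    have h1 : (C 2 : k[X]) = 2 := rfl
    have h2 : (C 14 : k[X]) = 14 := rfl
    rw [fp, h1, h2]; ring
  rw [this]
  compute_degree!

theorem fp_ne : fp k ≠ 0 := by
  intro h
  have := natDegree_fp (k := k)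
  rw [h, natDegree_zero] at this
  norm_num at this

theorem fp_coprime : IsCoprime (fp k) (derivative (fp k)) := by
  rw [Polynomial.isCoprime_iff_aeval_ne_zero_of_isAlgClosed k (AlgebraicClosure k)]
  intro y
  by_contra hcon
  push Not at hcon
  obtain ⟨h1, h2⟩ := hcon
  rw [derivative_fp] at h2
  simp only [fp, map_mul, map_add, map_pow, aeval_X, map_one, map_ofNat] at h1 h2
  have := charZero_of_injective_algebraMap (algebraMap k (AlgebraicClosure k)).injective
  refine no_common (x := y) ?_ ?_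
  · exact (mul_eq_zero.1 h1).resolve_left two_ne_zero
  · exact (mul_eq_zero.1 h2).resolve_left two_ne_zero

theorem not_sq_dvd {p : k[X]} (hp : ¬ IsUnit p) : ¬ p ^ 2 ∣ fp k := by
  rintro ⟨q, hq⟩
  apply hp
  have h1 : p ∣ fp k := ⟨p * q, by rw [hq]; ring⟩
  have h2 : p ∣ derivative (fp k) := by
    rw [hq, sq, derivative_mul, derivative_mul]
    exact ⟨2 * derivative p * q + p * derivative q, by ring⟩
  exact fp_coprime.isUnit_of_dvd' h1 h2

theorem fp_notMem (P : HeightOneSpectrum k[X]) : fp k ∉ P.asIdeal ^ 2 := by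
  obtain ⟨⟨p, hp⟩⟩ := IsPrincipalIdealRing.principal P.asIdeal
  rw [Ideal.submodule_span_eq] at hp
  intro h
  rw [hp, Ideal.span_singleton_pow, Ideal.mem_span_singleton] at h
  refine not_sq_dvd (fun hu => ?_) h
  apply P.isPrime.ne_top
  rw [hp, Ideal.span_singleton_eq_top]
  exact hu

theorem v_fp (P : HeightOneSpectrum k[X]) :
    exp (-1) ≤ P.valuation (RatFunc k) (algebraMap k[X] (RatFunc k) (fp k)) := by
  apply exp_neg_one_le
  rw [HeightOneSpectrum.valuation_of_algebraMap]
  by_contra hcon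
  push Not at hcon
  have h2 : P.intValuation (fp k) ≤ exp (-((2 : ℕ) : ℤ)) := by exact_mod_cast hcon
  rw [HeightOneSpectrum.intValuation_le_pow_iff_mem] at h2
  exact fp_notMem P h2

theorem not_cube (z : RatFunc k) : z ^ 3 ≠ algebraMap k[X] (RatFunc k) (fp k) := by
  intro h
  have hint : IsIntegral k[X] z := by
    refine IsIntegral.of_pow (n := 3) (by norm_num) ?_
    rw [h]; exact isIntegral_algebraMap
  obtain ⟨p, hp⟩ := IsIntegrallyClosed.isIntegral_iff.1 hint
  rw [← hp, ← map_pow] at h
  have h2 : p ^ 3 = fp k := (IsFractionRing.injective k[X] (RatFunc k)) h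
  have h3 : ¬ IsUnit p := by
    intro hu
    have h4 := natDegree_eq_zero_of_isUnit hu
    have h5 := natDegree_fp (k := k)
    rw [← h2, natDegree_pow, h4] at h5
    norm_num at h5
  exact not_sq_dvd h3 ⟨p, by rw [← h2]; ring⟩

end vals

end Pool.Agent.Y970.EC
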